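import Pool.Agent.MP_7a7339_al.Basic

set_option autoImplicit false

namespace Pool.Agent.MP_7a7339_al

open Subgroup

/-- If `z < w` (the second group is the larger one) then `c' < n w`. -/
theorem lt_of_lt {c c' g h n z w : ℕ} (hn : 2 ≤ n) (hz : 0 < z) (h1 : c + w = c' + z)
    (h2 : g + w = h + z) (h3 : h = c' * n) (h4 : c ∣ g) (hzw : z < w) : c' < n * w := by
  have h5 := core_dvd (by omega : 1 ≤ n) h1 h2 h3 h4
  have h6 : Nat.gcd c c' ∣ w - z := by
    have hc : w - z = c' - c := by omega
    rw [hc]
    exact Nat.dvd_sub (Nat.gcd_dvd_right _ _) (Nat.gcd_dvd_left _ _)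
  have h7 : Nat.gcd c c' ≤ w - z := Nat.le_of_dvd (by omega) h6
  have hgpos : 0 < Nat.gcd c c' := Nat.gcd_pos_of_pos_right _ (by omega)
  have h8 : c ≤ (n - 1) * Nat.gcd c c' :=
    Nat.le_of_dvd (Nat.mul_pos (by omega) hgpos) h5
  have h9 : c ≤ (n - 1) * (w - z) := le_trans h8 (Nat.mul_le_mul_left _ h7)
  obtain ⟨m, rfl⟩ := Nat.exists_eq_add_of_le hn
  obtain ⟨d, rfl⟩ := Nat.exists_eq_add_of_lt hzw
  have e1 : 2 + m - 1 = m + 1 := by omega
  have e2 : z + d + 1 - z = d + 1 := by omega
  rw [e1, e2] at h9
  nlinarith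

/-- If `w < z` (the second group is the smaller one) then `c' < n (z - w)`. -/
theorem lt_of_gt {c c' g h n z w : ℕ} (hn : 2 ≤ n) (hc0 : 0 < c) (h1 : c + w = c' + z)
    (h2 : g + w = h + z) (h3 : h = c' * n) (h4 : c ∣ g) (hzw : w < z) : c' < n * (z - w) := by
  have h5 := core_dvd (by omega : 1 ≤ n) h1 h2 h3 h4
  have h6 : Nat.gcd c c' ∣ z - w := by
    have hc : z - w = c - c' := by omega
    rw [hc]
    exact Nat.dvd_sub (Nat.gcd_dvd_left _ _) (Nat.gcd_dvd_right _ _)
  have h7 : Nat.gcd c c' ≤ z - w := Nat.le_of_dvd (by omega) h6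
  have hgpos : 0 < Nat.gcd c c' := Nat.gcd_pos_of_pos_left _ hc0
  have h8 : c ≤ (n - 1) * Nat.gcd c c' :=
    Nat.le_of_dvd (Nat.mul_pos (by omega) hgpos) h5
  have h9 : c ≤ (n - 1) * (z - w) := le_trans h8 (Nat.mul_le_mul_left _ h7)
  have h10 : (n - 1) * (z - w) ≤ n * (z - w) := Nat.mul_le_mul_right _ (by omega)
  omega

variable {G H : Type*} [Group G] [Group H] [Finite G] [Finite H]

theorem index_centralizer_ge_two (x : NC G) : 2 ≤ (centralizer {(x : G)}).index := by
  have h0 : (centralizer {(x : G)}).index ≠ 0 := Subgroup.index_ne_zero_of_finite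
  have h1 : (centralizer {(x : G)}).index ≠ 1 := by
    intro h
    rw [Subgroup.index_eq_one, Subgroup.centralizer_eq_top_iff_subset] at h
    exact x.2 (h rfl)
  omega

theorem card_mul_index' (x : NC G) :
    Nat.card G = Nat.card (centralizer {(x : G)}) * (centralizer {(x : G)}).index :=
  (Subgroup.card_mul_index _).symm

/-- General fact (no nilpotency): in the larger group every noncentral element satisfies
`|C(x)|^2 < |H| |Z(H)|`. -/
theorem sq_lt_of_lt (E : CommEquiv G H)
    (hlt : Nat.card (center G) < Nat.card (center H)) (y : NC H) :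
    Nat.card (centralizer {(y : H)}) ^ 2 < Nat.card H * Nat.card (center H) := by
  obtain ⟨x, rfl⟩ := E.e.surjective y
  have h1 := E.card_centralizer x
  have h2 := E.card_group
  have h3 := card_mul_index' (E.e x)
  have h4 : Nat.card (centralizer {(x : G)}) ∣ Nat.card G := Subgroup.card_subgroup_dvd_card _
  have h5 := lt_of_lt (index_centralizer_ge_two (E.e x)) card_center_pos h1 h2 h3 h4 hlt
  have hpos : 0 < Nat.card (centralizer {(E.e x : H)}) := Nat.card_pos
  rw [h3]
  calc Nat.card (centralizer {(E.e x : H)}) ^ 2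
      = Nat.card (centralizer {(E.e x : H)}) * Nat.card (centralizer {(E.e x : H)}) := sq _
    _ < Nat.card (centralizer {(E.e x : H)}) *
          ((centralizer {(E.e x : H)}).index * Nat.card (center H)) :=
        Nat.mul_lt_mul_of_pos_left h5 hpos
    _ = _ := by ring

/-- General fact (no nilpotency): in the smaller group every noncentral element satisfies
`|C(x)|^2 < |H| (|Z(G)| - |Z(H)|)`. -/
theorem sq_lt_of_gt (E : CommEquiv G H)
    (hlt : Nat.card (center H) < Nat.card (center G)) (y : NC H) :
    Nat.card (centralizer {(y : H)}) ^ 2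
      < Nat.card H * (Nat.card (center G) - Nat.card (center H)) := by
  obtain ⟨x, rfl⟩ := E.e.surjective y
  have h1 := E.card_centralizer x
  have h2 := E.card_group
  have h3 := card_mul_index' (E.e x)
  have h4 : Nat.card (centralizer {(x : G)}) ∣ Nat.card G := Subgroup.card_subgroup_dvd_card _
  have h5 := lt_of_gt (index_centralizer_ge_two (E.e x)) Nat.card_pos h1 h2 h3 h4 hlt
  have hpos : 0 < Nat.card (centralizer {(E.e x : H)}) := Nat.card_pos
  rw [h3]
  calc Nat.card (centralizer {(E.e x : H)}) ^ 2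
      = Nat.card (centralizer {(E.e x : H)}) * Nat.card (centralizer {(E.e x : H)}) := sq _
    _ < Nat.card (centralizer {(E.e x : H)}) *
          ((centralizer {(E.e x : H)}).index * (Nat.card (center G) - Nat.card (center H))) :=
        Nat.mul_lt_mul_of_pos_left h5 hpos
    _ = _ := by ring

theorem cz_pair (x y : NC G) :
    cz ({x, y} : Set (NC G)) = centralizer {(x : G)} ⊓ centralizer {(y : G)} := by
  ext g
  rw [mem_cz, Subgroup.mem_inf, Subgroup.mem_centralizer_singleton_iff,
    Subgroup.mem_centralizer_singleton_iff]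
  constructor
  · intro h
    exact ⟨((h x (by simp)).eq).symm, ((h y (by simp)).eq).symm⟩
  · rintro ⟨h1, h2⟩ t ht
    rcases ht with rfl | ht
    · exact h1.symm
    · rw [Set.mem_singleton_iff] at ht
      subst ht
      exact h2.symm

/-- If the two centres have different sizes, then `H` has no two commuting noncentral elements
`x, y` with `|C(x)| |C(y)| ≥ |H| |C(x) ∩ C(y)|`. -/
theorem no_commuting_factorization (E : CommEquiv G H)
    (hne : Nat.card (center G) ≠ Nat.card (center H)) {x y : NC H} (hxy : Commute (x : H) y)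
    (hfac : Nat.card H * Nat.card (cz ({x, y} : Set (NC H)))
      ≤ Nat.card (centralizer {(x : H)}) * Nat.card (centralizer {(y : H)})) : False := by
  set h := Nat.card H with hh
  set a := Nat.card (centralizer {(x : H)}) with ha
  set b := Nat.card (centralizer {(y : H)}) with hb
  set t := Nat.card (cz ({x, y} : Set (NC H))) with ht
  set z := Nat.card (center G) with hz
  set w := Nat.card (center H) with hw
  have hzpos : 0 < z := card_center_pos
  have hwpos : 0 < w := card_center_pos
  have hhpos : 0 < h := Nat.card_pos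
  rcases lt_or_gt_of_ne hne with hlt | hgt
  · have h1 : a ^ 2 < h * w := sq_lt_of_lt E hlt x
    have h2 : b ^ 2 < h * w := sq_lt_of_lt E hlt y
    have h3 : w ≤ t := Nat.le_of_dvd Nat.card_pos (card_center_dvd_card_cz _)
    have h4 : h * w ≤ a * b := le_trans (Nat.mul_le_mul_left _ h3) hfac
    nlinarith [sq_nonneg ((a : ℤ) - b)]
  · have h1 : a ^ 2 < h * (z - w) := sq_lt_of_gt E hgt x
    have h2 : b ^ 2 < h * (z - w) := sq_lt_of_gt E hgt y
    have h3 : h * t < h * (z - w) := by nlinarith [sq_nonneg ((a : ℤ) - b)]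
    have h4 : t < z - w := Nat.lt_of_mul_lt_mul_left h3
    -- transfer to `G`
    have h5 := E.symm.card_add ({x, y} : Set (NC H))
    have h6 : ((E.symm.e x : NC G) : G) ∈ cz (E.symm.e '' ({x, y} : Set (NC H))) := by
      rw [mem_cz]
      rintro _ ⟨u, hu, rfl⟩
      rcases hu with rfl | hu
      · exact Commute.refl _
      · rw [Set.mem_singleton_iff] at hu
        subst hu
        exact (E.symm.comm _ _).1 hxy.symm
    have h7 := two_mul_le_card_cz h6
    omega

end Pool.Agent.MP_7a7339_al
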