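import Mathlib

set_option autoImplicit false

/-!
Non-commuting graphs: basic transfer lemmas.

Throughout `z = |Z(G)|`, `w = |Z(H)|`, and for a set `S` of noncentral elements of `G` the
centralizers `C_G(S)` and `C_H(e S)` satisfy `|C_G(S)| - z = |C_H(e S)| - w`.
-/

namespace Pool.Agent.MP_7a7339_al

open Subgroup

/-- The noncentral elements of a group. -/
abbrev NC (G : Type*) [Group G] : Type _ := {g : G // g ∉ Subgroup.center G}

/-- A bijection between the noncentral elements of two groups which preserves and reflects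
commutation. -/
structure CommEquiv (G H : Type*) [Group G] [Group H] where
  /-- the bijection -/
  e : NC G ≃ NC H
  /-- it preserves and reflects commutation -/
  comm : ∀ x y : NC G, Commute (x : G) (y : G) ↔ Commute (e x : H) (e y : H)

variable {G H : Type*} [Group G] [Group H]

/-- An isomorphism of non-commuting graphs yields a commutation-preserving bijection. -/
theorem exists_commEquiv
    (f : SimpleGraph.Iso
        (SimpleGraph.fromRel
          (fun x y : {g : G // g ∉ Subgroup.center G} => x.1 * y.1 ≠ y.1 * x.1))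
        (SimpleGraph.fromRel
          (fun x y : {h : H // h ∉ Subgroup.center H} => x.1 * y.1 ≠ y.1 * x.1))) :
    Nonempty (CommEquiv G H) := by
  refine ⟨⟨f.toEquiv, fun x y => ?_⟩⟩
  by_cases hxy : x = y
  · subst hxy
    exact iff_of_true (Commute.refl _) (Commute.refl _)
  · have h := f.map_rel_iff (a := x) (b := y)
    rw [SimpleGraph.fromRel_adj, SimpleGraph.fromRel_adj] at h
    have hne : f x ≠ f y := fun h' => hxy (f.injective h')
    have h1 : ((f x).1 * (f y).1 ≠ (f y).1 * (f x).1) ↔ (x.1 * y.1 ≠ y.1 * x.1) := by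
      constructor
      · intro h2
        have := (h.1 ⟨hne, Or.inl h2⟩).2
        rcases this with h3 | h3
        · exact h3
        · exact fun h4 => h3 h4.symm
      · intro h2
        have := (h.2 ⟨hxy, Or.inl h2⟩).2
        rcases this with h3 | h3
        · exact h3
        · exact fun h4 => h3 h4.symm
    have h2 := not_iff_not.2 h1
    simp only [ne_eq, not_not] at h2
    exact h2.symm

/-- The inverse of a commutation-preserving bijection. -/
def CommEquiv.symm (E : CommEquiv G H) : CommEquiv H G where
  e := E.e.symm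
  comm x y := by
    have := E.comm (E.e.symm x) (E.e.symm y)
    simpa using this.symm

/-- The centralizer of a set of noncentral elements. -/
abbrev cz (S : Set (NC G)) : Subgroup G := Subgroup.centralizer ((fun x : NC G => (x : G)) '' S)

theorem mem_cz {S : Set (NC G)} {g : G} : g ∈ cz S ↔ ∀ x ∈ S, Commute (x : G) g := by
  constructor
  · intro h x hx
    exact (Subgroup.mem_centralizer_iff.1 h) x ⟨x, hx, rfl⟩
  · intro h
    refine Subgroup.mem_centralizer_iff.2 ?_
    rintro _ ⟨x, hx, rfl⟩
    exact h x hx

theorem center_le_cz (S : Set (NC G)) : Subgroup.center G ≤ cz S :=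
  Subgroup.center_le_centralizer _

theorem card_cz [Finite G] (S : Set (NC G)) :
    Nat.card (cz S) = Nat.card (Subgroup.center G)
      + Nat.card {y : NC G // ∀ x ∈ S, Commute (x : G) (y : G)} := by
  classical
  let e1 : {g : cz S // (g : G) ∈ Subgroup.center G} ≃ Subgroup.center G :=
    { toFun := fun g => ⟨g.1.1, g.2⟩
      invFun := fun g => ⟨⟨g.1, center_le_cz S g.2⟩, g.2⟩
      left_inv := fun g => rfl
      right_inv := fun g => rfl }
  let e2 : {g : cz S // ¬ (g : G) ∈ Subgroup.center G} ≃
      {y : NC G // ∀ x ∈ S, Commute (x : G) (y : G)} :=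
    { toFun := fun g => ⟨⟨g.1.1, g.2⟩, mem_cz.1 g.1.2⟩
      invFun := fun g => ⟨⟨g.1.1, mem_cz.2 g.2⟩, g.1.2⟩
      left_inv := fun g => rfl
      right_inv := fun g => rfl }
  have e3 := Equiv.sumCompl (fun g : cz S => (g : G) ∈ Subgroup.center G)
  rw [← Nat.card_congr e3, Nat.card_sum, Nat.card_congr e1, Nat.card_congr e2]

/-- The basic transfer identity, for centralizers of arbitrary sets of noncentral elements. -/
theorem CommEquiv.card_add [Finite G] [Finite H] (E : CommEquiv G H) (S : Set (NC G)) :
    Nat.card (cz S) + Nat.card (Subgroup.center H)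
      = Nat.card (cz (E.e '' S)) + Nat.card (Subgroup.center G) := by
  rw [card_cz S, card_cz (E.e '' S)]
  have : Nat.card {y : NC G // ∀ x ∈ S, Commute (x : G) (y : G)}
      = Nat.card {y : NC H // ∀ x ∈ E.e '' S, Commute (x : H) (y : H)} := by
    refine Nat.card_congr (E.e.subtypeEquiv fun y => ?_)
    constructor
    · rintro h _ ⟨x, hx, rfl⟩
      exact (E.comm x y).1 (h x hx)
    · intro h x hx
      exact (E.comm x y).2 (h _ ⟨x, hx, rfl⟩)
  omega

theorem cz_empty : cz (∅ : Set (NC G)) = ⊤ := by
  rw [eq_top_iff]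
  intro g _
  exact mem_cz.2 (fun x hx => absurd hx (Set.notMem_empty x))

/-- `|G| + |Z(H)| = |H| + |Z(G)|`. -/
theorem CommEquiv.card_group [Finite G] [Finite H] (E : CommEquiv G H) :
    Nat.card G + Nat.card (Subgroup.center H) = Nat.card H + Nat.card (Subgroup.center G) := by
  have h := E.card_add ∅
  rw [Set.image_empty, cz_empty, cz_empty, Subgroup.card_top, Subgroup.card_top] at h
  exact h

theorem cz_singleton (x : NC G) : cz ({x} : Set (NC G)) = Subgroup.centralizer {(x : G)} := by
  simp [cz]

/-- `|C_G(x)| + |Z(H)| = |C_H(e x)| + |Z(G)|`. -/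
theorem CommEquiv.card_centralizer [Finite G] [Finite H] (E : CommEquiv G H) (x : NC G) :
    Nat.card (Subgroup.centralizer {(x : G)}) + Nat.card (Subgroup.center H)
      = Nat.card (Subgroup.centralizer {(E.e x : H)}) + Nat.card (Subgroup.center G) := by
  have h := E.card_add {x}
  rw [Set.image_singleton, cz_singleton, cz_singleton] at h
  exact h

theorem card_center_dvd_card_cz (S : Set (NC G)) :
    Nat.card (Subgroup.center G) ∣ Nat.card (cz S) :=
  Subgroup.card_dvd_of_le (center_le_cz S)

theorem card_center_pos [Finite G] : 0 < Nat.card (Subgroup.center G) := Nat.card_pos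

/-- If the centralizer of `S` contains a noncentral element, it is at least twice as large as the
centre. -/
theorem two_mul_le_card_cz [Finite G] {S : Set (NC G)} {y : NC G} (hy : (y : G) ∈ cz S) :
    2 * Nat.card (Subgroup.center G) ≤ Nat.card (cz S) := by
  obtain ⟨k, hk⟩ := card_center_dvd_card_cz S
  have h1 : Nat.card (Subgroup.center G) < Nat.card (cz S) := by
    refine Set.ncard_lt_ncard (s := (Subgroup.center G : Set G)) (t := (cz S : Set G)) ?_ ?_
    · refine ⟨center_le_cz S, fun h => y.2 (h hy)⟩
    · exact Set.toFinite _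
  have hz := card_center_pos (G := G)
  have hk1 : k ≠ 0 := by
    rintro rfl
    simp at hk
    omega
  have hk2 : k ≠ 1 := by
    rintro rfl
    simp at hk
    omega
  have : 2 ≤ k := by omega
  calc 2 * Nat.card (Subgroup.center G) ≤ k * Nat.card (Subgroup.center G) :=
        Nat.mul_le_mul_right _ this
    _ = Nat.card (cz S) := by rw [hk, mul_comm]

/-! ### Arithmetic -/

/-- Core divisibility: if `c ∣ g` with `g = h + (c - c')`, `h = c' n`, then `c ∣ (n-1) gcd(c,c')`. -/
theorem core_dvd {c c' g h n z w : ℕ} (hn : 1 ≤ n) (h1 : c + w = c' + z) (h2 : g + w = h + z)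
    (h3 : h = c' * n) (h4 : c ∣ g) : c ∣ (n - 1) * Nat.gcd c c' := by
  obtain ⟨m, rfl⟩ := Nat.exists_eq_add_of_le hn
  have hg : g = c + c' * m := by
    have : h = c' + c' * m := by rw [h3]; ring
    omega
  have h5 : c ∣ c' * m := by
    have := (Nat.dvd_add_right (dvd_refl c)).1 (hg ▸ h4)
    exact this
  have h6 : c ∣ c * m := Dvd.intro _ rfl
  have h7 : c ∣ Nat.gcd (c * m) (c' * m) := Nat.dvd_gcd h6 h5
  rw [Nat.gcd_mul_right] at h7
  simpa [mul_comm] using h7

end Pool.Agent.MP_7a7339_al
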