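import Pool.Agent.MP_7a7339_al.Delta

set_option autoImplicit false

namespace Pool.Agent.MP_7a7339_al

open Subgroup

section
variable {H : Type*} [Group H]

/-- In a nonabelian nilpotent group there is a noncentral element all of whose commutators are
central. -/
theorem exists_second_center [Group.IsNilpotent H] (hH : ∃ a b : H, a * b ≠ b * a) :
    ∃ y : NC H, ∀ h : H, (y : H) * h * (y : H)⁻¹ * h⁻¹ ∈ center H := by
  have hne : center H ≠ ⊤ := by
    intro h
    obtain ⟨a, b, hab⟩ := hH
    have : a ∈ center H := by rw [h]; trivial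
    exact hab ((Subgroup.mem_center_iff.1 this b).symm)
  have hnt : Nontrivial (H ⧸ center H) := by
    rw [QuotientGroup.nontrivial_iff]
    exact hne
  have hc : center (H ⧸ center H) ≠ ⊥ := Group.IsNilpotent.center_ne_bot _
  obtain ⟨q, hq1⟩ := Subgroup.ne_bot_iff_exists_ne_one.1 hc
  obtain ⟨y, hy⟩ := QuotientGroup.mk_surjective (q : H ⧸ center H)
  refine ⟨⟨y, ?_⟩, ?_⟩
  · intro hyc
    apply hq1
    rw [Subtype.ext_iff, ← hy]
    simpa using (QuotientGroup.eq_one_iff y).2 hyc
  · intro h
    rw [← QuotientGroup.eq_one_iff]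
    have h1 := Subgroup.mem_center_iff.1 q.2 (h : H ⧸ center H)
    rw [← hy] at h1
    have h2 : ((y * h * y⁻¹ * h⁻¹ : H) : H ⧸ center H)
        = (y : H ⧸ center H) * h * (y : H ⧸ center H)⁻¹ * (h : H ⧸ center H)⁻¹ := rfl
    rw [h2, ← h1]
    group

/-- The commutator homomorphism attached to such an element. -/
def commHom {y : H} (hy : ∀ h : H, y * h * y⁻¹ * h⁻¹ ∈ center H) : H →* center H where
  toFun h := ⟨y * h * y⁻¹ * h⁻¹, hy h⟩
  map_one' := by
    apply Subtype.ext
    simp
  map_mul' h k := by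
    apply Subtype.ext
    have hk := Subgroup.mem_center_iff.1 (hy k) h
    change y * (h * k) * y⁻¹ * (h * k)⁻¹ = (y * h * y⁻¹ * h⁻¹) * (y * k * y⁻¹ * k⁻¹)
    calc y * (h * k) * y⁻¹ * (h * k)⁻¹ = (y * h * y⁻¹) * (y * k * y⁻¹ * k⁻¹) * h⁻¹ := by group
      _ = (y * h * y⁻¹) * h⁻¹ * (h * (y * k * y⁻¹ * k⁻¹)) * h⁻¹ := by group
      _ = (y * h * y⁻¹) * h⁻¹ * ((y * k * y⁻¹ * k⁻¹) * h) * h⁻¹ := by rw [hk]
      _ = (y * h * y⁻¹ * h⁻¹) * (y * k * y⁻¹ * k⁻¹) := by group

theorem ker_commHom {y : H} (hy : ∀ h : H, y * h * y⁻¹ * h⁻¹ ∈ center H) :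
    (commHom hy).ker = centralizer {y} := by
  ext h
  rw [MonoidHom.mem_ker, Subgroup.mem_centralizer_singleton_iff]
  constructor
  · intro h1
    have h2 : y * h * y⁻¹ * h⁻¹ = 1 := congrArg Subtype.val h1
    calc h * y = 1 * h * y := by group
      _ = y * h * y⁻¹ * h⁻¹ * h * y := by rw [h2]
      _ = y * h := by group
  · intro h1
    apply Subtype.ext
    change y * h * y⁻¹ * h⁻¹ = 1
    rw [← h1]
    group

theorem index_dvd_center [Finite H] {y : H} (hy : ∀ h : H, y * h * y⁻¹ * h⁻¹ ∈ center H) :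
    (centralizer {y}).index ∣ Nat.card (center H) := by
  rw [← ker_commHom hy, Subgroup.index_ker]
  exact Subgroup.card_subgroup_dvd_card _

/-- Every prime dividing the order of a finite nilpotent group divides the order of its centre. -/
theorem dvd_card_center [Finite H] [Group.IsNilpotent H] {p : ℕ} [hp : Fact p.Prime]
    (h : p ∣ Nat.card H) : p ∣ Nat.card (center H) := by
  let R : Sylow p H := default
  have hR : Nontrivial R :=
    (Subgroup.nontrivial_iff_ne_bot _).2 (R.ne_bot_of_dvd_card h)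
  have hcn : Nontrivial (center R) := R.isPGroup'.center_nontrivial
  obtain ⟨r, hr, hr1⟩ := (Subgroup.nontrivial_iff_exists_ne_one _).1 hcn
  have hrc : (r : H) ∈ center H := by
    rw [Subgroup.mem_center_iff]
    intro g
    obtain ⟨a, b, hab, ⟨k, ha⟩, hb⟩ := exists_decomp p g
    have h1 : Commute (g ^ a) (r : H) := by
      have hmem := mem_sylow_of_orderOf R ha
      have := Subgroup.mem_center_iff.1 hr ⟨g ^ a, hmem⟩
      exact congrArg Subtype.val this
    have h2 : Commute (g ^ b) (r : H) := (commute_of_coprime R r.2 hb).symm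
    rw [hab]
    exact (h1.mul_left h2).eq
  have hord : p ∣ orderOf (r : H) := by
    obtain ⟨k, hk⟩ := R.isPGroup' r
    have h1 : orderOf r ∣ p ^ k := orderOf_dvd_of_pow_eq_one hk
    have h2 : orderOf r ≠ 1 := fun h => hr1 (orderOf_eq_one_iff.1 h)
    obtain ⟨j, hj, hj'⟩ := (Nat.dvd_prime_pow hp.out).1 h1
    rw [Subgroup.orderOf_coe, hj']
    refine dvd_pow_self p ?_
    rintro rfl
    exact h2 (by rw [hj', pow_zero])
  have h3 : orderOf (r : H) ∣ Nat.card (center H) := by
    have := orderOf_dvd_natCard (⟨(r : H), hrc⟩ : center H)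
    rwa [← Subgroup.orderOf_coe] at this
  exact dvd_trans hord h3

end

variable {G H : Type*} [Group G] [Group H] [Finite G] [Finite H]

/-- Every prime divisor of `|H : Z(H)|` divides `|Z(G)|`. -/
theorem dvd_card_center_of_dvd_index [Group.IsNilpotent H] (E : CommEquiv G H)
    (hH : ∃ a b : H, a * b ≠ b * a) {p : ℕ} (hp : p.Prime) (hdvd : p ∣ (center H).index) :
    p ∣ Nat.card (center G) := by
  have hfact : Fact p.Prime := ⟨hp⟩
  by_cases heq : Nat.card (center G) = Nat.card (center H)
  · rw [heq]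
    exact dvd_card_center (dvd_trans hdvd (Subgroup.index_dvd_card _))
  · obtain ⟨q, k, hq, hkpos, hk⟩ := index_center_prime_pow E hH heq
    have hpq : p = q := by
      rw [hk] at hdvd
      exact (Nat.prime_dvd_prime_iff_eq hp hq).1 (hp.dvd_of_dvd_pow hdvd)
    subst hpq
    by_contra hpz
    obtain ⟨y, hy⟩ := exists_second_center hH
    obtain ⟨x, rfl⟩ := E.e.surjective y
    obtain ⟨e, r, r', he, hz, hw, hcop, -⟩ :=
      exists_reduced (Nat.card (center G)) (Nat.card (center H)) card_center_pos
    obtain ⟨j, hj1, hjk, hj2, hj3⟩ := exponent_of_noncentral hp hk (E.e x)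
    have hn := index_dvd_center hy
    -- `p` divides `w` but not `e`, hence divides `r'` but not `r`
    have hpe : ¬ p ∣ e := fun h => hpz (by rw [hz]; exact Dvd.dvd.mul_right h r)
    have hpr : ¬ p ∣ r := fun h => hpz (by rw [hz]; exact Dvd.dvd.mul_left h e)
    have hpn : p ∣ (centralizer {(E.e x : H)}).index := by
      rw [hj3]
      exact dvd_pow_self p (by omega)
    have hpw : p ∣ Nat.card (center H) := dvd_trans hpn hn
    have hpr' : p ∣ r' := by
      rw [hw] at hpw
      exact ((Nat.Prime.dvd_mul hp).1 hpw).resolve_left hpe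
    have hδ : ¬ (p : ℤ) ∣ (r : ℤ) - r' := by
      intro h
      have h1 : (p : ℤ) ∣ (r' : ℤ) := by exact_mod_cast hpr'
      have h2 : (p : ℤ) ∣ (r : ℤ) := by
        have := dvd_add h h1
        simpa using this
      exact hpr (by exact_mod_cast h2)
    obtain ⟨M, hM⟩ : Nat.card (center G) ∣ Nat.card (centralizer {(x : G)}) :=
      Subgroup.card_dvd_of_le (Subgroup.center_le_centralizer _)
    have hg := gcd_eq hp he hz hw hcop hM hj2 (E.card_centralizer x) hδ
    have h1 := E.card_centralizer x
    have h2 := E.card_group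
    have h3 := card_mul_index' (E.e x)
    have h4 : Nat.card (centralizer {(x : G)}) ∣ Nat.card G := Subgroup.card_subgroup_dvd_card _
    have hn2 := index_centralizer_ge_two (E.e x)
    have h5 := core_dvd (by omega) h1 h2 h3 h4
    rw [hg] at h5
    have h6 : Nat.card (centralizer {(x : G)}) ≤ ((centralizer {(E.e x : H)}).index - 1) * e :=
      Nat.le_of_dvd (Nat.mul_pos (by omega) he) h5
    have h7 : e * (centralizer {(E.e x : H)}).index ∣ Nat.card (center H) := by
      refine Nat.Coprime.mul_dvd_of_dvd_of_dvd ?_ (by rw [hw]; exact Dvd.intro _ rfl) hn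
      rw [hj3]
      exact (Nat.Coprime.pow_left _ ((Nat.Prime.coprime_iff_not_dvd hp).2 hpe)).symm
    have h8 : e * (centralizer {(E.e x : H)}).index ≤ Nat.card (center H) :=
      Nat.le_of_dvd card_center_pos h7
    have h9 : ((centralizer {(E.e x : H)}).index - 1) * e
        ≤ e * (centralizer {(E.e x : H)}).index := by
      rw [mul_comm e]
      exact Nat.mul_le_mul_right _ (by omega)
    have hmem : (E.e x : H) ∈ cz ({E.e x} : Set (NC H)) := by
      rw [mem_cz]
      intro t ht
      rw [Set.mem_singleton_iff.1 ht]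
    have h10 := two_mul_le_card_cz hmem
    rw [cz_singleton] at h10
    have h11 := card_center_pos (G := G)
    omega

/-- If `|Z(G)| > |Z(H)|` and `|H:Z(H)|` is a power of `p` then `p` does not divide `|G:Z(G)|`. -/
theorem not_dvd_index_of_gt (E : CommEquiv G H)
    (hgt : Nat.card (center H) < Nat.card (center G)) {p k : ℕ} (hp : p.Prime) (hk1 : 1 ≤ k)
    (hk : (center H).index = p ^ k) : ¬ p ∣ (center G).index := by
  obtain ⟨e, r, r', he, hz, hw, hcop, -⟩ :=
      exists_reduced (Nat.card (center G)) (Nat.card (center H)) card_center_pos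
  have hδ := not_dvd_delta E hgt hp hk1 hk he hz hw hcop
  have hlt : r' < r := by
    rw [hz, hw] at hgt
    exact Nat.lt_of_mul_lt_mul_left hgt
  have hN : Nat.card G = Nat.card (center G) * (center G).index := (card_mul_index _).symm
  have hN' : Nat.card H = Nat.card (center H) * p ^ k := by rw [← hk]; exact (card_mul_index _).symm
  have hred := reduced he hz hw hN hN' E.card_group
  intro h
  apply hδ
  have h1 : p ∣ r * (center G).index := Dvd.dvd.mul_left h r
  have h2 : p ∣ r' * p ^ k := Dvd.dvd.mul_left (dvd_pow_self p (by omega)) r'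
  have h3 : r * (center G).index = r' * p ^ k + (r - r') := by omega
  rw [h3] at h1
  exact (Nat.dvd_add_right h2).1 h1

end Pool.Agent.MP_7a7339_al
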