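import Pool.Agent.NCG.Final

set_option autoImplicit false

/-!
Class numbers of groups with isomorphic non-commuting graphs.
-/

namespace Pool.Agent.MP_7a7339_al

open Subgroup

variable {G H : Type*} [Group G] [Group H]

private theorem sum_inst {α : Type*} (i j : Fintype α) (f : α → ℕ) :
    @Finset.sum α ℕ _ (@Finset.univ α i) f = @Finset.sum α ℕ _ (@Finset.univ α j) f := by
  rw [Subsingleton.elim i j]

/-- `|{(x, y) : x y = y x}| = |Z(G)| |G| + ∑ |C_G(x)|`, the sum over the noncentral `x`. -/
theorem card_classes_mul [Finite G] [Fintype (NC G)] :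
    Nat.card (ConjClasses G) * Nat.card G
      = Nat.card (center G) * Nat.card G
        + ∑ x : NC G, Nat.card (centralizer {(x : G)}) := by
  classical
  have : Fintype G := Fintype.ofFinite G
  rw [← card_comm_eq_card_conjClasses_mul_card]
  have e : {p : G × G // Commute p.1 p.2} ≃ Σ x : G, centralizer {x} :=
    { toFun := fun p => ⟨p.1.1, ⟨p.1.2, Subgroup.mem_centralizer_singleton_iff.2 p.2.symm⟩⟩
      invFun := fun s => ⟨(s.1, s.2.1), (Subgroup.mem_centralizer_singleton_iff.1 s.2.2).symm⟩
      left_inv := fun p => rfl
      right_inv := fun s => rfl }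
  rw [Nat.card_congr e, Nat.card_sigma]
  rw [← Fintype.sum_subtype_add_sum_subtype (fun x : G => x ∈ center G)
    (fun x => Nat.card (centralizer {x}))]
  congr 1
  · have : ∀ x : {x : G // x ∈ center G}, Nat.card (centralizer {(x : G)}) = Nat.card G := by
      intro x
      have : centralizer {(x : G)} = ⊤ := by
        rw [Subgroup.centralizer_eq_top_iff_subset]
        simp
      rw [this, Subgroup.card_top]
    rw [Finset.sum_congr rfl (fun x _ => this x), Finset.sum_const, smul_eq_mul,
      Finset.card_univ, ← Nat.card_eq_fintype_card]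
  · exact sum_inst _ _ _

theorem card_nc_add [Finite G] : Nat.card (NC G) + Nat.card (center G) = Nat.card G := by
  classical
  have e := Equiv.sumCompl (fun g : G => g ∈ center G)
  have h := Nat.card_congr e
  rw [Nat.card_sum] at h
  have h1 : Nat.card {g : G // g ∈ center G} = Nat.card (center G) := rfl
  have h2 : Nat.card {g : G // ¬ g ∈ center G} = Nat.card (NC G) := rfl
  omega

/-- The centre acts on the conjugacy classes by multiplication. -/
@[reducible] noncomputable def classAct (G : Type*) [Group G] : MulAction (center G) (ConjClasses G) where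
  smul w := Quotient.map' (fun x => (w : G) * x) (by
    intro a b hab
    obtain ⟨c, hc⟩ := isConj_iff.1 (show IsConj a b from hab)
    refine isConj_iff.2 ⟨c, ?_⟩
    have hw := Subgroup.mem_center_iff.1 w.2 c
    rw [← hc, ← mul_assoc c, hw]
    group)
  one_smul := by
    intro b
    induction b using Quotient.inductionOn' with
    | h x => exact congrArg ConjClasses.mk (one_mul x)
  mul_smul := by
    intro u v b
    induction b using Quotient.inductionOn' with
    | h x => exact congrArg ConjClasses.mk (mul_assoc (u : G) (v : G) x)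

/-- `|Z(G) : Z(G) ∩ G'|` divides the class number of `G`. -/
theorem relIndex_dvd_card_classes [Finite G] :
    (commutator G).relIndex (center G) ∣ Nat.card (ConjClasses G) := by
  classical
  let _ := classAct G
  have : Finite (ConjClasses G) := inferInstance
  have : Fintype (Quotient (MulAction.orbitRel (center G) (ConjClasses G))) := Fintype.ofFinite _
  rw [Nat.card_congr (MulAction.selfEquivSigmaOrbitsQuotientStabilizer (center G) (ConjClasses G)),
    Nat.card_sigma]
  refine Finset.dvd_sum fun ω _ => ?_
  change ((commutator G).subgroupOf (center G)).index ∣ _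
  refine Subgroup.index_dvd_of_le (fun w hw => ?_)
  rw [MulAction.mem_stabilizer_iff] at hw
  revert hw
  induction (Quotient.out ω) using Quotient.inductionOn' with
  | h x =>
    intro hw
    have h1 : ConjClasses.mk ((w : G) * x) = ConjClasses.mk x := hw
    obtain ⟨c, hc⟩ := isConj_iff.1 (ConjClasses.mk_eq_mk_iff_isConj.1 h1.symm)
    rw [Subgroup.mem_subgroupOf]
    have h2 : (w : G) = c * x * c⁻¹ * x⁻¹ := by
      rw [hc]
      group
    rw [h2]
    exact Subgroup.commutator_mem_commutator (Subgroup.mem_top c) (Subgroup.mem_top x)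

theorem relIndex_dvd_card_center :
    (commutator G).relIndex (center G) ∣ Nat.card (center G) :=
  Subgroup.index_dvd_card _

/-- The number `K` of noncentral classes: `K |G| = ∑ |C_G(x)|` over the noncentral `x`. -/
theorem exists_noncentral_classes [Finite G] [Fintype (NC G)] :
    Nat.card (ConjClasses G) = (Nat.card (ConjClasses G) - Nat.card (center G))
        + Nat.card (center G) ∧
      (Nat.card (ConjClasses G) - Nat.card (center G)) * Nat.card G
        = ∑ x : NC G, Nat.card (centralizer {(x : G)}) := by
  have h := card_classes_mul (G := G)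
  have hpos : 0 < Nat.card G := Nat.card_pos
  have hle : Nat.card (center G) ≤ Nat.card (ConjClasses G) := by
    refine Nat.le_of_mul_le_mul_right ?_ hpos
    omega
  refine ⟨by omega, ?_⟩
  rw [Nat.sub_mul]
  omega

/-- The sums of the centralizer orders of two groups with isomorphic non-commuting graphs. -/
theorem CommEquiv.sum_centralizer [Finite G] [Finite H] [Fintype (NC G)] [Fintype (NC H)]
    (E : CommEquiv G H) :
    ∑ x : NC G, Nat.card (centralizer {(x : G)}) + Nat.card (NC G) * Nat.card (center H)
      = ∑ y : NC H, Nat.card (centralizer {(y : H)}) + Nat.card (NC G) * Nat.card (center G) := by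
  have h1 : ∑ x : NC G, (Nat.card (centralizer {(x : G)}) + Nat.card (center H))
      = ∑ x : NC G, (Nat.card (centralizer {(E.e x : H)}) + Nat.card (center G)) :=
    Finset.sum_congr rfl fun x _ => E.card_centralizer x
  rw [Finset.sum_add_distrib, Finset.sum_add_distrib, Finset.sum_const, Finset.sum_const,
    Finset.card_univ, smul_eq_mul, smul_eq_mul, ← Nat.card_eq_fintype_card] at h1
  rw [h1]
  congr 1
  exact Equiv.sum_comp E.e (fun y : NC H => Nat.card (centralizer {(y : H)}))

/-- The class number identity `|G| (k(G) - |Z(G)| + |Z(H)|) = |H| (k(H) - |Z(H)| + |Z(G)|)`. -/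
theorem CommEquiv.class_identity [Finite G] [Finite H] (E : CommEquiv G H) :
    Nat.card G * ((Nat.card (ConjClasses G) - Nat.card (center G)) + Nat.card (center H))
      = Nat.card H * ((Nat.card (ConjClasses H) - Nat.card (center H)) + Nat.card (center G)) := by
  classical
  have : Fintype (NC G) := Fintype.ofFinite _
  have : Fintype (NC H) := Fintype.ofFinite _
  have h1 := (exists_noncentral_classes (G := G)).2
  have h2 := (exists_noncentral_classes (G := H)).2
  have h3 := E.sum_centralizer
  have h4 := card_nc_add (G := G)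
  have h5 := E.card_group
  have h6 := card_nc_add (G := H)
  have h7 : Nat.card (NC G) = Nat.card (NC H) := Nat.card_congr E.e
  rw [mul_add, mul_add, mul_comm (Nat.card G) (_ - _), mul_comm (Nat.card H) (_ - _), h1, h2]
  rw [← h4]
  rw [← h6, ← h7]
  nlinarith [h3]

/-- Coprimality of `|G| / gcd` and `|H| / gcd`. -/
private theorem cop_aux {A B M Q p k e : ℕ} (hp : p.Prime) (hQ : Q = p ^ k)
    (hM : ¬ p ∣ M) (hcop : Nat.Coprime B A) (he : 0 < e)
    (h : e * B * M + e * A = e * A * Q + e * B) : Nat.Coprime (B * M) (A * Q) := by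
  have h' : B * M + A = A * Q + B := by
    have : e * (B * M + A) = e * (A * Q + B) := by
      rw [mul_add, mul_add, ← mul_assoc, ← mul_assoc]
      exact h
    exact Nat.eq_of_mul_eq_mul_left he this
  refine Nat.Coprime.symm (Nat.coprime_of_dvd fun l hl h1 h2 => ?_)
  have hA : ¬ (l ∣ A ∧ l ∣ B) := by
    rintro ⟨ha, hb⟩
    have := Nat.dvd_gcd hb ha
    rw [hcop.gcd_eq_one] at this
    exact hl.one_lt.ne' (Nat.dvd_one.1 this)
  have hAB : l ∣ A ↔ l ∣ B := by
    constructor
    · intro ha
      have h3 : l ∣ A * Q + B := h' ▸ (dvd_add h2 ha)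
      exact (Nat.dvd_add_right h1).1 h3
    · intro hb
      have h3 : l ∣ B * M + A := h' ▸ (dvd_add h1 hb)
      exact (Nat.dvd_add_right h2).1 h3
  rcases (hl.dvd_mul).1 h1 with h3 | h3
  · exact hA ⟨h3, hAB.1 h3⟩
  · rw [hQ] at h3
    have hlp : l = p := (Nat.prime_dvd_prime_iff_eq hl hp).1 (hl.dvd_of_dvd_pow h3)
    subst hlp
    rcases (hl.dvd_mul).1 h2 with h4 | h4
    · exact hA ⟨hAB.2 h4, h4⟩
    · exact hM h4

/-- The arithmetic behind the bounds for the class numbers. -/
private theorem arith_aux {A B M Q e g K K' v c : ℕ} (hcop : Nat.Coprime (B * M) (A * Q))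
    (he : 0 < e) (hA : 0 < A) (hg : 0 < g) (hQ : 0 < Q)
    (h1 : e * B * M * (K + e * A) = e * A * Q * (K' + e * B))
    (hgK : g ∣ K + e * A) (hgK' : g ∣ K' + e * B)
    (hv : v = e * A * (Q - 1)) (hvK : v < Q * K) (hc : c = e * A * Q) :
    c * g ∣ e * (K + e * A) ∧ g * v < 2 * e * K := by
  have h2 : B * M * (K + e * A) = A * Q * (K' + e * B) := by
    have : e * (B * M * (K + e * A)) = e * (A * Q * (K' + e * B)) := by
      calc e * (B * M * (K + e * A)) = e * B * M * (K + e * A) := by ring
        _ = e * A * Q * (K' + e * B) := h1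
        _ = _ := by ring
    exact Nat.eq_of_mul_eq_mul_left he this
  obtain ⟨t, ht⟩ : A * Q ∣ K + e * A :=
    hcop.symm.dvd_of_dvd_mul_left ⟨K' + e * B, h2⟩
  have hAQ : 0 < A * Q := Nat.mul_pos hA hQ
  have ht' : K' + e * B = B * M * t := by
    rw [ht] at h2
    have : A * Q * (K' + e * B) = A * Q * (B * M * t) := by
      rw [← h2]; ring
    exact Nat.eq_of_mul_eq_mul_left hAQ this
  have hgt : g ∣ t := by
    have h3 : g ∣ Nat.gcd (A * Q * t) (B * M * t) :=
      Nat.dvd_gcd (ht ▸ hgK) (ht' ▸ hgK')
    rw [Nat.gcd_mul_right, hcop.symm.gcd_eq_one, one_mul] at h3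
    exact h3
  have htpos : 0 < t := by
    rcases Nat.eq_zero_or_pos t with h0 | h0
    · rw [h0, mul_zero] at ht
      have := Nat.mul_pos he hA
      omega
    · exact h0
  have hle : A * Q * g ≤ K + e * A := by
    rw [ht]
    exact Nat.mul_le_mul_left _ (Nat.le_of_dvd htpos hgt)
  constructor
  · obtain ⟨s, hs⟩ := hgt
    refine ⟨s, ?_⟩
    rw [ht, hs, hc]
    ring
  · by_contra hcon
    have hcon : 2 * e * K ≤ g * v := not_lt.1 hcon
    obtain ⟨q, rfl⟩ : ∃ q, Q = q + 1 := ⟨Q - 1, by omega⟩
    have hv' : v = e * A * q := by rw [hv]; simp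
    -- `2 K ≤ g A q`
    have h4 : 2 * K ≤ g * (A * q) := by
      have : e * (2 * K) ≤ e * (g * (A * q)) := by
        calc e * (2 * K) = 2 * e * K := by ring
          _ ≤ g * v := hcon
          _ = _ := by rw [hv']; ring
      exact Nat.le_of_mul_le_mul_left this he
    -- `g (q + 2) ≤ 2 e`
    have h5 : g * (q + 2) ≤ 2 * e := by
      have : A * (g * (q + 2)) ≤ A * (2 * e) := by nlinarith
      exact Nat.le_of_mul_le_mul_left this hA
    have hK : 0 < K := by
      rcases Nat.eq_zero_or_pos K with h0 | h0
      · rw [h0, mul_zero] at hvK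
        omega
      · exact h0
    have h6 : g * v < g * ((q + 1) * K) := Nat.mul_lt_mul_of_pos_left hvK hg
    have h7 : g * ((q + 1) * K) ≤ 2 * e * K := by
      calc g * ((q + 1) * K) = g * (q + 1) * K := by ring
        _ ≤ g * (q + 2) * K := Nat.mul_le_mul_right _ (Nat.mul_le_mul_left _ (by omega))
        _ ≤ 2 * e * K := Nat.mul_le_mul_right _ h5
    omega

/-- Every noncentral class of `G` has fewer than `|H : Z(H)|` elements; summed up. -/
theorem CommEquiv.card_nc_lt [Finite G] [Finite H] (E : CommEquiv G H)
    (hne : Nonempty (NC G)) :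
    Nat.card (NC G)
      < (center H).index * (Nat.card (ConjClasses G) - Nat.card (center G)) := by
  classical
  have : Fintype (NC G) := Fintype.ofFinite _
  have h1 := (exists_noncentral_classes (G := G)).2
  have hG : 0 < Nat.card G := Nat.card_pos
  have hz := card_center_pos (G := G)
  have hw := card_center_pos (G := H)
  have hind : Nat.card (center H) * (center H).index = Nat.card H := (center H).card_mul_index
  have hQ : 0 < (center H).index := by
    rcases Nat.eq_zero_or_pos (center H).index with h0 | h0
    · rw [h0, mul_zero] at hind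
      have : 0 < Nat.card H := Nat.card_pos
      omega
    · exact h0
  have hgr := E.card_group
  have key : ∀ x : NC G, Nat.card G < (center H).index * Nat.card (centralizer {(x : G)}) := by
    intro x
    have h2 := E.card_centralizer x
    have h3 : 2 * Nat.card (center H) ≤ Nat.card (centralizer {(E.e x : H)}) := by
      rw [← cz_singleton]
      exact two_mul_le_card_cz (y := E.e x) (mem_cz.2 (by
        rintro y hy
        rw [Set.mem_singleton_iff.1 hy]))
    have h4 : Nat.card (center H) + Nat.card (center G)
        ≤ Nat.card (centralizer {(x : G)}) := by omega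
    have h5 : (center H).index * (Nat.card (center H) + Nat.card (center G))
        ≤ (center H).index * Nat.card (centralizer {(x : G)}) := Nat.mul_le_mul_left _ h4
    have h6 : Nat.card (center G) ≤ (center H).index * Nat.card (center G) :=
      Nat.le_mul_of_pos_left _ hQ
    rw [mul_add, mul_comm (center H).index (Nat.card (center H)), hind] at h5
    omega
  have h2 : ∑ _x : NC G, Nat.card G
      < ∑ x : NC G, (center H).index * Nat.card (centralizer {(x : G)}) :=
    Finset.sum_lt_sum_of_nonempty (Finset.univ_nonempty) fun x _ => key x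
  rw [Finset.sum_const, Finset.card_univ, smul_eq_mul, ← Nat.card_eq_fintype_card,
    ← Finset.mul_sum, ← h1, ← mul_assoc] at h2
  exact Nat.lt_of_mul_lt_mul_right h2

/-- Main theorem: divisibility and size bounds for the class numbers. -/
theorem class_bounds [Finite G] [Finite H] [Group.IsNilpotent H]
    (hH : ∃ a b : H, a * b ≠ b * a) (E : CommEquiv G H) (hG : ¬ Group.IsNilpotent G) :
    (Nat.card H * Nat.gcd ((commutator G).relIndex (center G))
          ((commutator H).relIndex (center H)) ∣
        Nat.gcd (Nat.card (center G)) (Nat.card (center H)) *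
          ((Nat.card (ConjClasses G) - Nat.card (center G)) + Nat.card (center H))) ∧
      (Nat.card G * Nat.gcd ((commutator G).relIndex (center G))
          ((commutator H).relIndex (center H)) ∣
        Nat.gcd (Nat.card (center G)) (Nat.card (center H)) *
          ((Nat.card (ConjClasses H) - Nat.card (center H)) + Nat.card (center G))) ∧
      Nat.gcd ((commutator G).relIndex (center G)) ((commutator H).relIndex (center H)) *
          (Nat.card G - Nat.card (center G))
        < 2 * Nat.gcd (Nat.card (center G)) (Nat.card (center H)) *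
          (Nat.card (ConjClasses G) - Nat.card (center G)) ∧
      Nat.gcd ((commutator G).relIndex (center G)) ((commutator H).relIndex (center H)) *
          (Nat.card H - Nat.card (center H))
        < 2 * Nat.gcd (Nat.card (center G)) (Nat.card (center H)) *
          (Nat.card (ConjClasses H) - Nat.card (center H)) := by
  obtain ⟨p, k, hp, hkpos, hk, hpM⟩ := Pool.Agent.NCG.structure_of_not_nilpotent hH E hG
  have hNCH : Nonempty (NC H) := by
    obtain ⟨a, b, hab⟩ := hH
    exact ⟨⟨a, fun h => hab ((Subgroup.mem_center_iff.1 h b).symm)⟩⟩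
  have hNCG : Nonempty (NC G) := ⟨E.e.symm hNCH.some⟩
  have hz := card_center_pos (G := G)
  have hw := card_center_pos (G := H)
  have hid := E.class_identity
  have hlt1 := E.card_nc_lt hNCG
  have hlt2 := E.symm.card_nc_lt hNCH
  have hgr := E.card_group
  have hnc1 := card_nc_add (G := G)
  have hnc2 := card_nc_add (G := H)
  have hnc : Nat.card (NC G) = Nat.card (NC H) := Nat.card_congr E.e
  have hindG : Nat.card (center G) * (center G).index = Nat.card G := (center G).card_mul_index
  have hindH : Nat.card (center H) * (center H).index = Nat.card H := (center H).card_mul_index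
  have hd1 := relIndex_dvd_card_classes (G := G)
  have hd2 := relIndex_dvd_card_classes (G := H)
  have hd3 := relIndex_dvd_card_center (G := G)
  have hd4 := relIndex_dvd_card_center (G := H)
  have hd5 : (commutator G).relIndex (center G) ∣
      Nat.card (ConjClasses G) - Nat.card (center G) := Nat.dvd_sub hd1 hd3
  have hd6 : (commutator H).relIndex (center H) ∣
      Nat.card (ConjClasses H) - Nat.card (center H) := Nat.dvd_sub hd2 hd4
  generalize Nat.card (ConjClasses G) - Nat.card (center G) = K at *
  generalize Nat.card (ConjClasses H) - Nat.card (center H) = K' at *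
  set gG := (commutator G).relIndex (center G) with hgG
  set gH := (commutator H).relIndex (center H) with hgH
  have hgpos : 0 < Nat.gcd gG gH := by
    refine Nat.gcd_pos_of_pos_left _ ?_
    exact Nat.pos_of_dvd_of_pos hd3 hz
  set g := Nat.gcd gG gH with hg
  have hgG' : g ∣ gG := Nat.gcd_dvd_left _ _
  have hgH' : g ∣ gH := Nat.gcd_dvd_right _ _
  set e := Nat.gcd (Nat.card (center G)) (Nat.card (center H)) with he
  have hepos : 0 < e := Nat.gcd_pos_of_pos_left _ hz
  obtain ⟨B, A, hcop, hB, hA⟩ : ∃ B A : ℕ, Nat.Coprime B A ∧ Nat.card (center G) = e * B ∧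
      Nat.card (center H) = e * A := by
    obtain ⟨B, A, hcop, hB, hA⟩ := Nat.exists_coprime (Nat.card (center G)) (Nat.card (center H))
    exact ⟨B, A, hcop, by rw [hB, mul_comm], by rw [hA, mul_comm]⟩
  have hBpos : 0 < B := by
    rcases Nat.eq_zero_or_pos B with h0 | h0
    · rw [h0, mul_zero] at hB; omega
    · exact h0
  have hApos : 0 < A := by
    rcases Nat.eq_zero_or_pos A with h0 | h0
    · rw [h0, mul_zero] at hA; omega
    · exact h0
  set M := (center G).index with hM
  set Q := (center H).index with hQ
  have hQpos : 0 < Q := by rw [hk]; exact pow_pos hp.pos _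
  have hMpos : 0 < M := by
    rcases Nat.eq_zero_or_pos M with h0 | h0
    · rw [h0, mul_zero] at hindG
      have : 0 < Nat.card G := Nat.card_pos
      omega
    · exact h0
  have hco : Nat.Coprime (B * M) (A * Q) := by
    refine cop_aux hp hk hpM hcop hepos ?_
    rw [← hB, ← hA, hindG, hindH]
    exact hgr
  have hid' : e * B * M * (K + e * A) = e * A * Q * (K' + e * B) := by
    rw [← hB, ← hA, hindG, hindH]
    exact hid
  have hv1 : Nat.card (NC G) = e * A * (Q - 1) := by
    rw [← hA, Nat.mul_sub, hindH, mul_one]; omega
  have hv2 : Nat.card (NC H) = e * B * (M - 1) := by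
    rw [← hB, Nat.mul_sub, hindG, mul_one]; omega
  have hgK : g ∣ K + e * A := by
    rw [← hA]
    exact dvd_add (hgG'.trans hd5) (hgH'.trans hd4)
  have hgK' : g ∣ K' + e * B := by
    rw [← hB]
    exact dvd_add (hgH'.trans hd6) (hgG'.trans hd3)
  have r1 := arith_aux (c := Nat.card H) hco hepos hApos hgpos hQpos hid' hgK hgK' hv1 hlt1
    (by rw [← hA, hindH])
  have r2 := arith_aux (c := Nat.card G) hco.symm hepos hBpos hgpos hMpos hid'.symm hgK' hgK
    hv2 hlt2 (by rw [← hB, hindG])
  have e1 : Nat.card G - Nat.card (center G) = Nat.card (NC G) := by omega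
  have e2 : Nat.card H - Nat.card (center H) = Nat.card (NC H) := by omega
  rw [e1, e2]
  refine ⟨?_, ?_, r1.2, r2.2⟩
  · rw [hA]; exact r1.1
  · rw [hB]; exact r2.1

/-- With the bound `|C_H(y)|^2 < |H| |Z(H)|` the centres must be large. -/
theorem sq_index_lt [Finite H] {g e : ℕ}
    (hy : ∀ y : NC H, Nat.card (centralizer {(y : H)}) ^ 2
      < Nat.card H * Nat.card (center H)) (hne : Nonempty (NC H)) (he : 0 < e)
    (h : g * (Nat.card H - Nat.card (center H))
      < 2 * e * (Nat.card (ConjClasses H) - Nat.card (center H))) :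
    g ^ 2 * (center H).index < 4 * e ^ 2 := by
  classical
  have : Fintype (NC H) := Fintype.ofFinite _
  have h1 := (exists_noncentral_classes (G := H)).2
  have hnc := card_nc_add (G := H)
  have hind : Nat.card (center H) * (center H).index = Nat.card H := (center H).card_mul_index
  have e2 : Nat.card H - Nat.card (center H) = Nat.card (NC H) := by omega
  rw [e2] at h
  by_contra hcon
  have hcon : 4 * e ^ 2 ≤ g ^ 2 * (center H).index := not_lt.1 hcon
  have key : ∀ y : NC H, 2 * e * Nat.card (centralizer {(y : H)}) < g * Nat.card H := by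
    intro y
    have h2 := hy y
    have h3 : (2 * e * Nat.card (centralizer {(y : H)})) ^ 2 < (g * Nat.card H) ^ 2 := by
      calc (2 * e * Nat.card (centralizer {(y : H)})) ^ 2
          = 4 * e ^ 2 * Nat.card (centralizer {(y : H)}) ^ 2 := by ring
        _ < 4 * e ^ 2 * (Nat.card H * Nat.card (center H)) :=
            Nat.mul_lt_mul_of_pos_left h2 (by positivity)
        _ ≤ g ^ 2 * (center H).index * (Nat.card H * Nat.card (center H)) :=
            Nat.mul_le_mul_right _ hcon
        _ = g ^ 2 * Nat.card H * (Nat.card (center H) * (center H).index) := by ring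
        _ = (g * Nat.card H) ^ 2 := by rw [hind]; ring
    exact lt_of_pow_lt_pow_left₀ 2 (Nat.zero_le _) h3
  have h2 : ∑ y : NC H, 2 * e * Nat.card (centralizer {(y : H)})
      < ∑ _y : NC H, g * Nat.card H :=
    Finset.sum_lt_sum_of_nonempty (Finset.univ_nonempty) fun y _ => key y
  rw [← Finset.mul_sum, ← h1, Finset.sum_const, Finset.card_univ, smul_eq_mul,
    ← Nat.card_eq_fintype_card] at h2
  have h3 : (2 * e * (Nat.card (ConjClasses H) - Nat.card (center H))) * Nat.card H
      < (g * Nat.card (NC H)) * Nat.card H := by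
    calc _ = 2 * e * ((Nat.card (ConjClasses H) - Nat.card (center H)) * Nat.card H) := by ring
      _ < _ := h2
      _ = _ := by ring
  have h4 := Nat.lt_of_mul_lt_mul_right h3
  omega

end Pool.Agent.MP_7a7339_al
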