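import Pool.Agent.MP_7a7339_al.Center

set_option autoImplicit false

namespace Pool.Agent.MP_7a7339_al

open Subgroup

/-- Arithmetic core for the case `d = w - z > 0`. -/
theorem dvd_of_factorization {p a i j k m w0 d t nx ny : ℕ} (hp : p.Prime)
    (hw0 : ¬ p ∣ w0) (hmi : m < i) (hmj : m < j) (hik : i < k) (hjk : j < k) (hd : 0 < d)
    (_hdt : d < p ^ a * w0 * p ^ m)
    (ht : (t : ℤ) = (p ^ a * w0 * p ^ m : ℕ) - (d : ℤ))
    (hx : (t : ℤ) * ny = (p ^ a * w0 * p ^ i : ℕ) - (d : ℤ))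
    (hy : (t : ℤ) * nx = (p ^ a * w0 * p ^ j : ℕ) - (d : ℤ))
    (hfac : ((p ^ a * w0 * p ^ i : ℕ) - (d : ℤ)) * ((p ^ a * w0 * p ^ j : ℕ) - (d : ℤ))
      = ((p ^ a * w0 * p ^ k : ℕ) - (d : ℤ)) * ((p ^ a * w0 * p ^ m : ℕ) - (d : ℤ))) :
    p ∣ ny := by
  have hp0 : (0 : ℤ) < p := by exact_mod_cast hp.pos
  have hp2 : 2 ≤ p := hp.two_le
  -- write `i = m + i1 + 1` etc.
  obtain ⟨i1, rfl⟩ := Nat.exists_eq_add_of_lt hmi
  obtain ⟨j1, rfl⟩ := Nat.exists_eq_add_of_lt hmj
  have hmk : m < k := by omega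
  obtain ⟨k1, rfl⟩ := Nat.exists_eq_add_of_lt hmk
  have hw0pos : 0 < w0 := by
    rcases Nat.eq_zero_or_pos w0 with h | h
    · exact absurd (by rw [h]; exact dvd_zero p) hw0
    · exact h
  -- the equation `d * u = w * (p^(k+m)-p^(i+j))/p^m`
  set W : ℤ := (p : ℤ) ^ a * w0 with hW
  have hWpos : 0 < W := by
    have : (0 : ℤ) < w0 := by exact_mod_cast hw0pos
    positivity
  have e1 : ((p ^ a * w0 * p ^ (m + i1 + 1) : ℕ) : ℤ) = W * p ^ m * p ^ (i1 + 1) := by
    push_cast; rw [hW]; ring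
  have e2 : ((p ^ a * w0 * p ^ (m + j1 + 1) : ℕ) : ℤ) = W * p ^ m * p ^ (j1 + 1) := by
    push_cast; rw [hW]; ring
  have e3 : ((p ^ a * w0 * p ^ (m + k1 + 1) : ℕ) : ℤ) = W * p ^ m * p ^ (k1 + 1) := by
    push_cast; rw [hW]; ring
  have e4 : ((p ^ a * w0 * p ^ m : ℕ) : ℤ) = W * p ^ m := by
    push_cast; rw [hW]
  rw [e1, e2, e3, e4] at hfac
  rw [e1] at hx
  rw [e4] at ht
  have hpm : (0 : ℤ) < (p : ℤ) ^ m := by positivity
  have key : (d : ℤ) * (1 + (p : ℤ) ^ (k1 + 1) - p ^ (i1 + 1) - p ^ (j1 + 1))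
      = W * p ^ m * ((p : ℤ) ^ (k1 + 1) - p ^ (i1 + 1) * p ^ (j1 + 1)) := by
    have h1 : (W * p ^ m) * ((d : ℤ) * (1 + (p : ℤ) ^ (k1 + 1) - p ^ (i1 + 1) - p ^ (j1 + 1)))
        = (W * p ^ m) * (W * p ^ m * ((p : ℤ) ^ (k1 + 1) - p ^ (i1 + 1) * p ^ (j1 + 1))) := by
      linear_combination hfac
    exact mul_left_cancel₀ (by positivity) h1
  -- `u` is prime to `p`
  have hu : IsCoprime ((p : ℤ)) (1 + (p : ℤ) ^ (k1 + 1) - p ^ (i1 + 1) - p ^ (j1 + 1)) := by
    refine ⟨-(p ^ k1 - p ^ i1 - p ^ j1), 1, ?_⟩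
    ring
  -- size: `p^(k1+1) > p^(i1+1) p^(j1+1)`
  have hupos : (0 : ℤ) < 1 + (p : ℤ) ^ (k1 + 1) - p ^ (i1 + 1) - p ^ (j1 + 1) := by
    have h1 : p ^ (i1 + 1) * 2 ≤ p ^ (k1 + 1) := by
      have : p ^ (i1 + 1) * p ≤ p ^ (k1 + 1) := by
        rw [← pow_succ]
        exact Nat.pow_le_pow_right hp.pos (by omega)
      exact le_trans (Nat.mul_le_mul_left _ hp2) this
    have h2 : p ^ (j1 + 1) * 2 ≤ p ^ (k1 + 1) := by
      have : p ^ (j1 + 1) * p ≤ p ^ (k1 + 1) := by
        rw [← pow_succ]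
        exact Nat.pow_le_pow_right hp.pos (by omega)
      exact le_trans (Nat.mul_le_mul_left _ hp2) this
    have h1' : (p : ℤ) ^ (i1 + 1) * 2 ≤ (p : ℤ) ^ (k1 + 1) := by exact_mod_cast h1
    have h2' : (p : ℤ) ^ (j1 + 1) * 2 ≤ (p : ℤ) ^ (k1 + 1) := by exact_mod_cast h2
    linarith
  have hdpos : (0 : ℤ) < d := by exact_mod_cast hd
  have hbr : (0 : ℤ) < (p : ℤ) ^ (k1 + 1) - p ^ (i1 + 1) * p ^ (j1 + 1) := by
    have h1 : 0 < W * p ^ m * ((p : ℤ) ^ (k1 + 1) - p ^ (i1 + 1) * p ^ (j1 + 1)) := by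
      rw [← key]; positivity
    exact (pos_iff_pos_of_mul_pos h1).1 (by positivity)
  have hexp : i1 + 1 + (j1 + 1) < k1 + 1 := by
    have h1 : (p : ℤ) ^ (i1 + 1 + (j1 + 1)) < (p : ℤ) ^ (k1 + 1) := by
      rw [pow_add]; linarith
    have h2 : p ^ (i1 + 1 + (j1 + 1)) < p ^ (k1 + 1) := by exact_mod_cast h1
    exact (Nat.pow_lt_pow_iff_right hp.one_lt).1 h2
  obtain ⟨l, hl⟩ := Nat.exists_eq_add_of_lt hexp
  -- `p^(a+m+i1+1+1) ∣ d`
  have hdd : ((p : ℤ)) ^ (a + m + (i1 + 1) + 1) ∣ (d : ℤ) := by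
    have h1 : ((p : ℤ)) ^ (a + m + (i1 + 1) + 1) ∣
        (d : ℤ) * (1 + (p : ℤ) ^ (k1 + 1) - p ^ (i1 + 1) - p ^ (j1 + 1)) := by
      rw [key]
      refine ⟨w0 * p ^ j1 * (p ^ (l + 1) - 1), ?_⟩
      rw [hW, hl]
      ring
    exact (IsCoprime.pow_left hu).dvd_of_dvd_mul_right h1
  by_contra hny
  have hcop : IsCoprime ((p : ℤ) ^ (a + m + (i1 + 1))) (ny : ℤ) := by
    refine IsCoprime.pow_left ?_
    exact Nat.isCoprime_iff_coprime.2 ((Nat.Prime.coprime_iff_not_dvd hp).2 hny)
  have h1 : ((p : ℤ)) ^ (a + m + (i1 + 1)) ∣ (t : ℤ) * ny := by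
    rw [hx]
    refine dvd_sub ?_ ?_
    · refine ⟨w0, ?_⟩
      rw [hW]; ring
    · exact dvd_trans (pow_dvd_pow _ (by omega)) hdd
  have h2 : ((p : ℤ)) ^ (a + m + (i1 + 1)) ∣ (t : ℤ) := hcop.dvd_of_dvd_mul_right h1
  have h3 : ((p : ℤ)) ^ (a + m + 1) ∣ W * p ^ m := by
    have h4 : ((p : ℤ)) ^ (a + m + 1) ∣ (t : ℤ) := dvd_trans (pow_dvd_pow _ (by omega)) h2
    have h5 : ((p : ℤ)) ^ (a + m + 1) ∣ (d : ℤ) := dvd_trans (pow_dvd_pow _ (by omega)) hdd
    have h6 : W * p ^ m = (t : ℤ) + d := by rw [ht]; ring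
    rw [h6]
    exact dvd_add h4 h5
  have h7 : (p : ℤ) ∣ w0 := by
    have h8 : ((p : ℤ)) ^ (a + m) * p ∣ (p : ℤ) ^ (a + m) * w0 := by
      have e5 : ((p : ℤ)) ^ (a + m) * p = (p : ℤ) ^ (a + m + 1) := by ring
      have e6 : (p : ℤ) ^ (a + m) * w0 = W * p ^ m := by rw [hW]; ring
      rw [e5, e6]; exact h3
    exact (mul_dvd_mul_iff_left (by positivity)).1 h8
  exact hw0 (by exact_mod_cast h7)

variable {G H : Type*} [Group G] [Group H] [Finite G] [Finite H]

/-- Two noncentral classes of coprime sizes force `|Z(G)| = |Z(H)|`. -/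
theorem card_center_eq_of_coprime [Group.IsNilpotent H] (E : CommEquiv G H)
    (hH : ∃ a b : H, a * b ≠ b * a) {x y : NC G}
    (hcop : Nat.Coprime (centralizer {(x : G)}).index (centralizer {(y : G)}).index) :
    Nat.card (center G) = Nat.card (center H) := by
  by_contra hne
  obtain ⟨p, k, hp, hkpos, hk⟩ := index_center_prime_pow E hH hne
  -- the relevant subgroups of `G`
  set A := centralizer {(x : G)} with hA
  set B := centralizer {(y : G)} with hB
  have hT : cz ({x, y} : Set (NC G)) = A ⊓ B := cz_pair x y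
  have hidx : (A ⊓ B).index = A.index * B.index := by
    refine le_antisymm Subgroup.index_inf_le ?_
    refine Nat.le_of_dvd (Nat.pos_of_ne_zero Subgroup.index_ne_zero_of_finite) ?_
    exact Nat.Coprime.mul_dvd_of_dvd_of_dvd hcop (Subgroup.index_dvd_of_le inf_le_left)
      (Subgroup.index_dvd_of_le inf_le_right)
  have hApos : 0 < A.index := Nat.pos_of_ne_zero Subgroup.index_ne_zero_of_finite
  have hBpos : 0 < B.index := Nat.pos_of_ne_zero Subgroup.index_ne_zero_of_finite
  have gA := A.card_mul_index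
  have gB := B.card_mul_index
  have gT := (A ⊓ B).card_mul_index
  rw [hidx] at gT
  set t := Nat.card (A ⊓ B : Subgroup G) with ht
  have hAt : Nat.card A = t * B.index := by
    refine Nat.eq_of_mul_eq_mul_right hApos ?_
    rw [gA, ← gT]; ring
  have hBt : Nat.card B = t * A.index := by
    refine Nat.eq_of_mul_eq_mul_right hBpos ?_
    rw [gB, ← gT]; ring
  -- the relevant subgroups of `H`
  have hT' : cz ({E.e x, E.e y} : Set (NC H))
      = centralizer {(E.e x : H)} ⊓ centralizer {(E.e y : H)} := cz_pair _ _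
  set A' := centralizer {(E.e x : H)} with hA'
  set B' := centralizer {(E.e y : H)} with hB'
  have eA := E.card_centralizer x
  have eB := E.card_centralizer y
  have eT := E.card_add {x, y}
  rw [Set.image_pair, hT, hT'] at eT
  have eG := E.card_group
  obtain ⟨i, hi1, hik, hi2, -⟩ := exponent_of_noncentral hp hk (E.e x)
  obtain ⟨j, hj1, hjk, hj2, -⟩ := exponent_of_noncentral hp hk (E.e y)
  obtain ⟨m, hmk, hm2, -⟩ := card_eq_of_center_le hp hk (A' ⊓ B')
    (le_inf (Subgroup.center_le_centralizer _) (Subgroup.center_le_centralizer _))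
  have hN' : Nat.card H = Nat.card (center H) * p ^ k := by rw [← hk]; exact (card_mul_index _).symm
  have hA2 := index_centralizer_ge_two x
  have hB2 := index_centralizer_ge_two y
  rw [← hA] at hA2 eA
  rw [← hB] at hB2 eB
  rw [← hA'] at hi2 eA
  rw [← hB'] at hj2 eB
  rw [← ht] at eT
  have htpos : 0 < t := Nat.card_pos
  have hwpos : 0 < Nat.card (center H) := card_center_pos
  have hzpos : 0 < Nat.card (center G) := card_center_pos
  have htA : t < Nat.card A := by
    rw [hAt]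
    exact lt_of_lt_of_le (by omega : t < t * 2) (Nat.mul_le_mul_left _ hB2)
  have htB : t < Nat.card B := by
    rw [hBt]
    exact lt_of_lt_of_le (by omega : t < t * 2) (Nat.mul_le_mul_left _ hA2)
  have hmi : m < i := by
    have : Nat.card (A' ⊓ B' : Subgroup H) < Nat.card A' := by omega
    rw [hm2, hi2] at this
    exact (Nat.pow_lt_pow_iff_right hp.one_lt).1 (Nat.lt_of_mul_lt_mul_left this)
  have hmj : m < j := by
    have : Nat.card (A' ⊓ B' : Subgroup H) < Nat.card B' := by omega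
    rw [hm2, hj2] at this
    exact (Nat.pow_lt_pow_iff_right hp.one_lt).1 (Nat.lt_of_mul_lt_mul_left this)
  have hprod : Nat.card A * Nat.card B = Nat.card G * t := by
    rw [hAt, hBt, ← gT]; ring
  rcases lt_or_gt_of_ne hne with hlt | hgt
  · -- `z < w`
    obtain ⟨d, hd⟩ := Nat.exists_eq_add_of_lt hlt
    obtain ⟨a, w0, hw0, hw⟩ := Nat.exists_eq_pow_mul_and_not_dvd
      (n := Nat.card (center H)) hwpos.ne' p hp.one_lt.ne'
    have hz' : Nat.card (center G) + (d + 1) = Nat.card (center H) := by omega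
    have hAd : Nat.card A + (d + 1) = Nat.card A' := by omega
    have hBd : Nat.card B + (d + 1) = Nat.card B' := by omega
    have hTd : t + (d + 1) = Nat.card (A' ⊓ B' : Subgroup H) := by omega
    have hGd : Nat.card G + (d + 1) = Nat.card H := by omega
    have hy1 : p ∣ B.index := by
      refine dvd_of_factorization (p := p) (a := a) (i := i) (j := j) (k := k) (m := m) (w0 := w0)
        (d := d + 1) (t := t) (nx := A.index) (ny := B.index) hp hw0 hmi hmj hik hjk (by omega)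
        ?_ ?_ ?_ ?_ ?_
      · rw [← hw, ← hm2]; omega
      · rw [← hw, ← hm2, ← hTd]; push_cast; ring
      · rw [← hw, ← hi2, ← hAd]
        have : (t : ℤ) * B.index = (Nat.card A : ℤ) := by rw [hAt]; push_cast; ring
        rw [this]; push_cast; ring
      · rw [← hw, ← hj2, ← hBd]
        have : (t : ℤ) * A.index = (Nat.card B : ℤ) := by rw [hBt]; push_cast; ring
        rw [this]; push_cast; ring
      · rw [← hw, ← hi2, ← hj2, ← hN', ← hm2, ← hAd, ← hBd, ← hTd, ← hGd]
        have : (Nat.card A : ℤ) * Nat.card B = (Nat.card G : ℤ) * t := by exact_mod_cast hprod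
        push_cast
        linear_combination this
    have hx1 : p ∣ A.index := by
      refine dvd_of_factorization (p := p) (a := a) (i := j) (j := i) (k := k) (m := m) (w0 := w0)
        (d := d + 1) (t := t) (nx := B.index) (ny := A.index) hp hw0 hmj hmi hjk hik (by omega)
        ?_ ?_ ?_ ?_ ?_
      · rw [← hw, ← hm2]; omega
      · rw [← hw, ← hm2, ← hTd]; push_cast; ring
      · rw [← hw, ← hj2, ← hBd]
        have : (t : ℤ) * A.index = (Nat.card B : ℤ) := by rw [hBt]; push_cast; ring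
        rw [this]; push_cast; ring
      · rw [← hw, ← hi2, ← hAd]
        have : (t : ℤ) * B.index = (Nat.card A : ℤ) := by rw [hAt]; push_cast; ring
        rw [this]; push_cast; ring
      · rw [← hw, ← hi2, ← hj2, ← hN', ← hm2, ← hAd, ← hBd, ← hTd, ← hGd]
        have : (Nat.card A : ℤ) * Nat.card B = (Nat.card G : ℤ) * t := by exact_mod_cast hprod
        push_cast
        linear_combination this
    have h1 : p ∣ Nat.gcd A.index B.index := Nat.dvd_gcd hx1 hy1
    rw [hcop.gcd_eq_one] at h1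
    exact hp.one_lt.ne' (Nat.dvd_one.1 h1)
  · -- `w < z`
    obtain ⟨D, hD⟩ := Nat.exists_eq_add_of_lt hgt
    have hAd : Nat.card A = Nat.card A' + (D + 1) := by omega
    have hBd : Nat.card B = Nat.card B' + (D + 1) := by omega
    have hTd : t = Nat.card (A' ⊓ B' : Subgroup H) + (D + 1) := by omega
    have hGd : Nat.card G = Nat.card H + (D + 1) := by omega
    have hle : Nat.card A' * Nat.card B' ≤ Nat.card H * Nat.card (A' ⊓ B' : Subgroup H) := by
      have h1 : (A' ⊓ B').index ≤ A'.index * B'.index := Subgroup.index_inf_le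
      have e1 := A'.card_mul_index
      have e2 := B'.card_mul_index
      have e3 := (A' ⊓ B').card_mul_index
      have hposi : 0 < (A' ⊓ B').index := Nat.pos_of_ne_zero Subgroup.index_ne_zero_of_finite
      have hpa : 0 < A'.index := Nat.pos_of_ne_zero Subgroup.index_ne_zero_of_finite
      have hpb : 0 < B'.index := Nat.pos_of_ne_zero Subgroup.index_ne_zero_of_finite
      refine Nat.le_of_mul_le_mul_right (c := A'.index * B'.index) ?_ (Nat.mul_pos hpa hpb)
      calc Nat.card A' * Nat.card B' * (A'.index * B'.index)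
          = (Nat.card A' * A'.index) * (Nat.card B' * B'.index) := by ring
        _ = Nat.card H * (Nat.card (A' ⊓ B' : Subgroup H) * (A' ⊓ B').index) := by
            rw [e1, e2, e3]
        _ ≤ Nat.card H * (Nat.card (A' ⊓ B' : Subgroup H) * (A'.index * B'.index)) :=
            Nat.mul_le_mul_left _ (Nat.mul_le_mul_left _ h1)
        _ = _ := by ring
    have hA2' : 2 * Nat.card A' ≤ Nat.card H := by
      have e1 := A'.card_mul_index
      have := index_centralizer_ge_two (E.e x)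
      rw [← hA'] at this
      calc 2 * Nat.card A' = Nat.card A' * 2 := by ring
        _ ≤ Nat.card A' * A'.index := Nat.mul_le_mul_left _ this
        _ = _ := e1
    have hB2' : 2 * Nat.card B' ≤ Nat.card H := by
      have e1 := B'.card_mul_index
      have := index_centralizer_ge_two (E.e y)
      rw [← hB'] at this
      calc 2 * Nat.card B' = Nat.card B' * 2 := by ring
        _ ≤ Nat.card B' * B'.index := Nat.mul_le_mul_left _ this
        _ = _ := e1
    have htpos' : 0 < Nat.card (A' ⊓ B' : Subgroup H) := Nat.card_pos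
    rw [hAd, hBd, hTd, hGd] at hprod
    have hfin : (D + 1) * (Nat.card H + Nat.card (A' ⊓ B' : Subgroup H))
        ≤ (D + 1) * (Nat.card A' + Nat.card B') := by
      have e1 : (Nat.card A' + (D + 1)) * (Nat.card B' + (D + 1))
          = Nat.card A' * Nat.card B' + (D + 1) * (Nat.card A' + Nat.card B')
            + (D + 1) * (D + 1) := by ring
      have e2 : (Nat.card H + (D + 1)) * (Nat.card (A' ⊓ B' : Subgroup H) + (D + 1))
          = Nat.card H * Nat.card (A' ⊓ B' : Subgroup H)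
            + (D + 1) * (Nat.card H + Nat.card (A' ⊓ B' : Subgroup H))
            + (D + 1) * (D + 1) := by ring
      rw [e1, e2] at hprod
      omega
    have := Nat.le_of_mul_le_mul_left hfin (by omega)
    omega

end Pool.Agent.MP_7a7339_al
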