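import Pool.Agent.MP_7a7339_al.SylowCentral

set_option autoImplicit false

namespace Pool.Agent.MP_7a7339_al

open Subgroup

/-- If `r M + r' = r' P + r` with `r, r'` coprime and `P ≥ 2` then `r < P`, and more precisely
`r ∣ P - 1`. -/
theorem r_dvd {r r' M P : ℕ} (hcop : Nat.Coprime r r') (hP : 2 ≤ P)
    (h : r * M + r' = r' * P + r) : r ∣ P - 1 ∧ r < P := by
  have h1 : (r : ℤ) ∣ (r' : ℤ) * ((P : ℤ) - 1) := by
    refine ⟨(M : ℤ) - 1, ?_⟩
    have h' : (r : ℤ) * M + r' = r' * P + r := by exact_mod_cast h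
    linarith
  have h2 : (r : ℤ) ∣ (P : ℤ) - 1 := by
    refine IsCoprime.dvd_of_dvd_mul_left ?_ h1
    exact Nat.isCoprime_iff_coprime.2 hcop
  have h3 : r ∣ P - 1 := by
    have : ((P - 1 : ℕ) : ℤ) = (P : ℤ) - 1 := by push_cast [Nat.cast_sub (by omega : 1 ≤ P)]; ring
    rw [← this] at h2
    exact_mod_cast h2
  refine ⟨h3, ?_⟩
  have := Nat.le_of_dvd (by omega) h3
  omega

theorem not_dvd_r {r r' M p j : ℕ} (hp : p.Prime) (hj : 1 ≤ j) (hcop : Nat.Coprime r r')
    (h : r * M + r' = r' * p ^ j + r) : ¬ p ∣ r := by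
  intro hpr
  have hP : 2 ≤ p ^ j := le_trans hp.two_le (Nat.le_self_pow (by omega) p)
  have h1 := (r_dvd hcop hP h).1
  have h2 : p ∣ p ^ j - 1 := dvd_trans hpr h1
  have h3 : p ∣ p ^ j := dvd_pow_self p (by omega)
  have h4 : p ∣ p ^ j - (p ^ j - 1) := Nat.dvd_sub h3 h2
  have h5 : p ^ j - (p ^ j - 1) = 1 := by omega
  rw [h5] at h4
  exact hp.one_lt.ne' (Nat.dvd_one.1 h4)

/-- `p`-adic valuation of `M`, when `p^s` exactly divides `r - r'`. -/
theorem val_M {r r' M p j s m : ℕ} (hp : p.Prime) (hj : 1 ≤ j) (hcop : Nat.Coprime r r')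
    (hlt : r' < r) (hs : r - r' = p ^ s * m) (hm : ¬ p ∣ m)
    (h : r * M + r' = r' * p ^ j + r) : p ^ s ∣ M ∧ ¬ p ^ (s + 1) ∣ M := by
  have hP : 2 ≤ p ^ j := le_trans hp.two_le (Nat.le_self_pow (by omega) p)
  have hpr := not_dvd_r hp hj hcop h
  have hrP := (r_dvd hcop hP h).2
  have hmpos : 0 < m := by
    rcases Nat.eq_zero_or_pos m with h0 | h0
    · rw [h0] at hs; omega
    · exact h0
  have hslt : p ^ s < p ^ j := by
    have : p ^ s ≤ p ^ s * m := Nat.le_mul_of_pos_right _ hmpos
    omega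
  have hsj : s < j := (Nat.pow_lt_pow_iff_right hp.one_lt).1 hslt
  have hrM : r * M = p ^ s * m + r' * p ^ j := by omega
  have hpj : p ^ j = p ^ (s + 1) * p ^ (j - (s + 1)) := by
    rw [← pow_add]; congr 1; omega
  have hcs : Nat.Coprime (p ^ s) r := Nat.Coprime.pow_left _ ((Nat.Prime.coprime_iff_not_dvd hp).2 hpr)
  constructor
  · have h1 : p ^ s ∣ r * M := by
      rw [hrM]
      refine dvd_add (Dvd.intro _ rfl) ?_
      exact Dvd.dvd.mul_left (pow_dvd_pow p hsj.le) r'
    exact hcs.dvd_of_dvd_mul_left h1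
  · intro h1
    have h2 : p ^ (s + 1) ∣ r * M := Dvd.dvd.mul_left h1 r
    rw [hrM] at h2
    have h3 : p ^ (s + 1) ∣ r' * p ^ j := Dvd.dvd.mul_left (Dvd.intro _ hpj.symm) r'
    have h4 : p ^ (s + 1) ∣ p ^ s * m := (Nat.dvd_add_left h3).1 h2
    rw [pow_succ] at h4
    exact hm (Nat.dvd_of_mul_dvd_mul_left (pow_pos hp.pos s) h4)

/-- Reduced form of the transfer identity. -/
theorem reduced {e r r' c c' z w M P : ℕ} (he : 0 < e) (hz : z = e * r) (hw : w = e * r')
    (hc : c = z * M) (hc' : c' = w * P) (h : c + w = c' + z) : r * M + r' = r' * P + r := by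
  refine Nat.eq_of_mul_eq_mul_left he ?_
  calc e * (r * M + r') = e * r * M + e * r' := by ring
    _ = c + w := by rw [hc, hz, hw]
    _ = c' + z := h
    _ = e * r' * P + e * r := by rw [hc', hz, hw]
    _ = e * (r' * P + r) := by ring

variable {G H : Type*} [Group G] [Group H] [Finite G] [Finite H]

theorem exists_reduced (a b : ℕ) (ha : 0 < a) : ∃ e r r' : ℕ, 0 < e ∧ a = e * r ∧ b = e * r' ∧
    Nat.Coprime r r' ∧ e = Nat.gcd a b := by
  have hpos : 0 < Nat.gcd a b := Nat.gcd_pos_of_pos_left _ ha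
  obtain ⟨r, r', hcop, h1, h2⟩ := Nat.exists_coprime a b
  exact ⟨Nat.gcd a b, r, r', hpos, by rw [mul_comm]; exact h1, by rw [mul_comm]; exact h2, hcop, rfl⟩

/-- data of a noncentral element of `H` when `|H/Z(H)| = p^k`. -/
theorem exponent_of_noncentral {p k : ℕ} (hp : p.Prime) (hk : (center H).index = p ^ k)
    (y : NC H) : ∃ j, 1 ≤ j ∧ j < k ∧
      Nat.card (centralizer {(y : H)}) = Nat.card (center H) * p ^ j ∧
      (centralizer {(y : H)}).index = p ^ (k - j) := by
  obtain ⟨j, hjk, h1, h2⟩ := card_eq_of_center_le hp hk (centralizer {(y : H)})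
    (Subgroup.center_le_centralizer _)
  refine ⟨j, ?_, ?_, h1, h2⟩
  · by_contra hj
    have hj0 : j = 0 := by omega
    rw [hj0, pow_zero, mul_one] at h1
    have hmem : (y : H) ∈ cz ({y} : Set (NC H)) := by
      rw [mem_cz]
      intro x hx
      rw [Set.mem_singleton_iff.1 hx]
    have h3 := two_mul_le_card_cz hmem
    rw [cz_singleton, h1] at h3
    have := card_center_pos (G := H)
    omega
  · by_contra hj
    have hjk' : k - j = 0 := by omega
    rw [hjk', pow_zero] at h2
    have := index_centralizer_ge_two y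
    omega

/-- Main lemma for `|Z(G)| > |Z(H)|`: with `r = |Z(G)|/e`, `r' = |Z(H)|/e`, the prime `p` does not
divide `r - r'`. -/
theorem not_dvd_delta (E : CommEquiv G H) (hgt : Nat.card (center H) < Nat.card (center G))
    {p k : ℕ} (hp : p.Prime) (hk1 : 1 ≤ k) (hk : (center H).index = p ^ k) {e r r' : ℕ}
    (he : 0 < e) (hz : Nat.card (center G) = e * r) (hw : Nat.card (center H) = e * r')
    (hcop : Nat.Coprime r r') : ¬ p ∣ r - r' := by
  intro hdvd
  have hfact : Fact p.Prime := ⟨hp⟩
  have hlt : r' < r := by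
    rw [hz, hw] at hgt
    exact Nat.lt_of_mul_lt_mul_left hgt
  obtain ⟨s, m, hm, hs⟩ := Nat.exists_eq_pow_mul_and_not_dvd (n := r - r') (by omega) p
    hp.one_lt.ne'
  have hs1 : 1 ≤ s := by
    by_contra h0
    have : s = 0 := by omega
    rw [this, pow_zero, one_mul] at hs
    exact hm (hs ▸ hdvd)
  -- the index of the centre of `G`
  have hN : Nat.card G = Nat.card (center G) * (center G).index := (card_mul_index _).symm
  have hN' : Nat.card H = Nat.card (center H) * p ^ k := by rw [← hk]; exact (card_mul_index _).symm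
  have hredN := reduced he hz hw hN hN' E.card_group
  have hvN := val_M hp hk1 hcop hlt hs hm hredN
  refine not_dvd_index_center (p := p) (G := G) ?_ ?_
  · intro x hx
    by_cases hxc : x ∈ center G
    · have : centralizer {x} = ⊤ := by
        rw [Subgroup.centralizer_eq_top_iff_subset]
        intro t ht
        rw [Set.mem_singleton_iff.1 ht]
        exact hxc
      rw [this, Subgroup.index_top] at hx
      exact hp.one_lt.ne' (Nat.dvd_one.1 hx)
    · obtain ⟨j, hj1, hjk, hj2, hj3⟩ := exponent_of_noncentral hp hk (E.e ⟨x, hxc⟩)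
      obtain ⟨M, hM⟩ : Nat.card (center G) ∣ Nat.card (centralizer {x}) :=
        Subgroup.card_dvd_of_le (Subgroup.center_le_centralizer _)
      have hred := reduced he hz hw hM hj2 (E.card_centralizer ⟨x, hxc⟩)
      have hvM := val_M hp hj1 hcop hlt hs hm hred
      have hMn : (center G).index = M * (centralizer {x}).index := by
        have h1 := (centralizer {x}).card_mul_index
        have h2 := (center G).card_mul_index
        refine Nat.eq_of_mul_eq_mul_left (card_center_pos (G := G)) ?_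
        rw [h2, ← h1, hM, mul_assoc]
      refine hvN.2 ?_
      rw [hMn, pow_succ]
      exact Nat.mul_dvd_mul hvM.1 hx
  · have h1 : p ∣ p ^ s := dvd_pow_self p (by omega)
    exact dvd_trans h1 hvN.1

/-- If `p` does not divide `r - r'` then the two centralizer orders have gcd equal to `e`. -/
theorem gcd_eq {e r r' c c' z w M p j : ℕ} (hp : p.Prime) (he : 0 < e) (hz : z = e * r)
    (hw : w = e * r') (hcop : Nat.Coprime r r') (hc : c = z * M) (hc' : c' = w * p ^ j)
    (h : c + w = c' + z) (hδ : ¬ (p : ℤ) ∣ (r : ℤ) - r') : Nat.gcd c c' = e := by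
  have hred := reduced he hz hw hc hc' h
  have hco : Nat.Coprime (r * M) (r' * p ^ j) := by
    refine Nat.coprime_of_dvd fun q hq hq1 hq2 => ?_
    have hqδ : (q : ℤ) ∣ (r : ℤ) - r' := by
      have h1 : (r : ℤ) - r' = r * M - r' * p ^ j := by
        have h' : (r : ℤ) * M + r' = r' * p ^ j + r := by exact_mod_cast hred
        linarith
      rw [h1]
      refine dvd_sub ?_ ?_
      · exact_mod_cast hq1
      · exact_mod_cast hq2
    rcases (Nat.Prime.dvd_mul hq).1 hq2 with h1 | h1
    · have h2 : (q : ℤ) ∣ (r : ℤ) := by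
        have h3 : (q : ℤ) ∣ (r' : ℤ) := by exact_mod_cast h1
        have := dvd_add hqδ h3
        simpa using this
      have h3 : q ∣ r := by exact_mod_cast h2
      have h4 : q ∣ Nat.gcd r r' := Nat.dvd_gcd h3 h1
      rw [hcop.gcd_eq_one] at h4
      exact hq.one_lt.ne' (Nat.dvd_one.1 h4)
    · have h2 : q ∣ p := hq.dvd_of_dvd_pow h1
      have h3 : q = p := (Nat.prime_dvd_prime_iff_eq hq hp).1 h2
      rw [h3] at hqδ
      exact hδ hqδ
  have h1 : c = e * (r * M) := by rw [hc, hz, mul_assoc]
  have h2 : c' = e * (r' * p ^ j) := by rw [hc', hw, mul_assoc]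
  rw [h1, h2, Nat.gcd_mul_left, hco.gcd_eq_one, mul_one]

/-- In the nilpotent group every noncentral element satisfies `|C(y)|^2 < |H| |Z(H)|`, unless the
centres have the same size. -/
theorem sq_lt_of_ne [Group.IsNilpotent H] (E : CommEquiv G H)
    (hH : ∃ a b : H, a * b ≠ b * a) (hne : Nat.card (center G) ≠ Nat.card (center H))
    (y : NC H) : Nat.card (centralizer {(y : H)}) ^ 2 < Nat.card H * Nat.card (center H) := by
  rcases lt_or_gt_of_ne hne with hlt | hgt
  · exact sq_lt_of_lt E hlt y
  · obtain ⟨p, k, hp, hkpos, hk⟩ := index_center_prime_pow E hH hne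
    obtain ⟨x, rfl⟩ := E.e.surjective y
    obtain ⟨e, r, r', he, hz, hw, hcop, -⟩ :=
      exists_reduced (Nat.card (center G)) (Nat.card (center H)) card_center_pos
    have hδ := not_dvd_delta E hgt hp hkpos hk he hz hw hcop
    have hlt : r' < r := by
      rw [hz, hw] at hgt
      exact Nat.lt_of_mul_lt_mul_left hgt
    have hδ' : ¬ (p : ℤ) ∣ (r : ℤ) - r' := by
      intro h
      have h1 : ((r - r' : ℕ) : ℤ) = (r : ℤ) - r' := by push_cast [Nat.cast_sub hlt.le]; ring
      rw [← h1] at h
      exact hδ (by exact_mod_cast h)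
    obtain ⟨j, hj1, hjk, hj2, hj3⟩ := exponent_of_noncentral hp hk (E.e x)
    obtain ⟨M, hM⟩ : Nat.card (center G) ∣ Nat.card (centralizer {(x : G)}) :=
      Subgroup.card_dvd_of_le (Subgroup.center_le_centralizer _)
    have hg := gcd_eq hp he hz hw hcop hM hj2 (E.card_centralizer x) hδ'
    have h1 := E.card_centralizer x
    have h2 := E.card_group
    have h3 := card_mul_index' (E.e x)
    have h4 : Nat.card (centralizer {(x : G)}) ∣ Nat.card G := Subgroup.card_subgroup_dvd_card _
    have hn2 := index_centralizer_ge_two (E.e x)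
    have h5 := core_dvd (by omega) h1 h2 h3 h4
    rw [hg] at h5
    have h6 : Nat.card (centralizer {(x : G)}) ≤ ((centralizer {(E.e x : H)}).index - 1) * e :=
      Nat.le_of_dvd (Nat.mul_pos (by omega) he) h5
    have h7 : e ≤ Nat.card (center H) := by
      rw [hw]
      refine Nat.le_mul_of_pos_right _ ?_
      rcases Nat.eq_zero_or_pos r' with h0 | h0
      · rw [h0, mul_zero] at hw
        have := card_center_pos (G := H)
        omega
      · exact h0
    have h8 : ((centralizer {(E.e x : H)}).index - 1) * e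
        ≤ (centralizer {(E.e x : H)}).index * Nat.card (center H) :=
      Nat.mul_le_mul (by omega) h7
    have h9 : Nat.card (centralizer {(E.e x : H)})
        < (centralizer {(E.e x : H)}).index * Nat.card (center H) := by omega
    have hpos : 0 < Nat.card (centralizer {(E.e x : H)}) := Nat.card_pos
    rw [h3]
    calc Nat.card (centralizer {(E.e x : H)}) ^ 2
        = Nat.card (centralizer {(E.e x : H)}) * Nat.card (centralizer {(E.e x : H)}) := sq _
      _ < Nat.card (centralizer {(E.e x : H)}) *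
            ((centralizer {(E.e x : H)}).index * Nat.card (center H)) :=
          Nat.mul_lt_mul_of_pos_left h9 hpos
      _ = _ := by ring

end Pool.Agent.MP_7a7339_al
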