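import Pool.Agent.MP_7a7339_al.Nilp

set_option autoImplicit false

/-!
The (known) case `|Z(G)| = |Z(H)|`, i.e. `|G| = |H|`: if `H` is nilpotent so is `G`.  The proof
here is elementary.
-/

namespace Pool.Agent.MP_7a7339_al

open Subgroup

section
variable {H : Type*} [Group H] [Finite H]

/-- A subgroup of index prime to `p` contains a Sylow `p`-subgroup of the whole group. -/
theorem exists_sylow_le {p : ℕ} [Fact p.Prime] (K : Subgroup H) (hK : ¬ p ∣ K.index) :
    ∃ P : Sylow p H, (P : Subgroup H) ≤ K := by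
  let T : Sylow p K := default
  have h1 : IsPGroup p ((T : Subgroup K).map K.subtype) := T.isPGroup'.map _
  have h2 : ¬ p ∣ ((T : Subgroup K).map K.subtype).index := by
    rw [Subgroup.index_map_subtype]
    intro h
    rcases (Nat.Prime.dvd_mul (Fact.out)).1 h with h | h
    · exact T.not_dvd_index h
    · exact hK h
  refine ⟨h1.toSylow h2, ?_⟩
  rw [IsPGroup.toSylow_coe]
  exact Subgroup.map_subtype_le _

theorem mem_of_coprime_index {N : Subgroup H} [N.Normal] {y : H}
    (h : Nat.Coprime N.index (orderOf y)) : y ∈ N := by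
  obtain ⟨m, hm⟩ := exists_pow_eq_self_of_coprime h
  rw [← hm]
  exact N.pow_mem (N.pow_index_mem y) m

/-- In a finite nilpotent group, elements of a Sylow `p`-subgroup commute with elements of order
prime to `p`. -/
theorem commute_of_coprime [Group.IsNilpotent H] {p : ℕ} [Fact p.Prime] (R : Sylow p H) {r y : H}
    (hr : r ∈ R) (hy : Nat.Coprime p (orderOf y)) : Commute r y := by
  have hN : y ∈ centralizer ((R : Subgroup H) : Set H) := by
    refine mem_of_coprime_index ?_
    refine Nat.coprime_of_dvd fun q hq hq1 hq2 => ?_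
    have : Fact q.Prime := ⟨hq⟩
    by_cases hqp : q = p
    · subst hqp
      exact (Nat.Prime.coprime_iff_not_dvd hq).1 hy hq2
    · let Q : Sylow q H := default
      have hdis : Disjoint (Q : Subgroup H) (R : Subgroup H) :=
        IsPGroup.disjoint_of_ne q p hqp _ _ Q.isPGroup' R.isPGroup'
      have hle : (Q : Subgroup H) ≤ centralizer ((R : Subgroup H) : Set H) := by
        intro a ha
        rw [Subgroup.mem_centralizer_iff]
        intro b hb
        exact (Subgroup.commute_of_normal_of_disjoint (Q : Subgroup H) (R : Subgroup H)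
          inferInstance inferInstance hdis a b ha hb).symm
      exact Q.not_dvd_index (dvd_trans hq1 (Subgroup.index_dvd_of_le hle))
  exact (Subgroup.mem_centralizer_iff.1 hN r hr)

/-- An element whose order is a power of `p` lies in the normal Sylow `p`-subgroup. -/
theorem mem_sylow_of_orderOf [Group.IsNilpotent H] {p : ℕ} [Fact p.Prime] (R : Sylow p H) {r : H}
    {k : ℕ} (hr : orderOf r ∣ p ^ k) : r ∈ R := by
  refine mem_of_coprime_index (N := (R : Subgroup H)) ?_
  have h1 : Nat.Coprime (R : Subgroup H).index p :=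
    ((Nat.Prime.coprime_iff_not_dvd Fact.out).2 R.not_dvd_index).symm
  exact Nat.Coprime.coprime_dvd_right hr (Nat.Coprime.pow_right k h1)

/-- Decomposition of an element into a `p`-part and a `p'`-part, both powers of it. -/
theorem exists_decomp (p : ℕ) [Fact p.Prime] (u : H) :
    ∃ a b : ℤ, u = u ^ a * u ^ b ∧ (∃ k : ℕ, orderOf (u ^ a) ∣ p ^ k) ∧
      Nat.Coprime p (orderOf (u ^ b)) := by
  have hpos : 0 < orderOf u := orderOf_pos u
  obtain ⟨k, m, hm, hkm⟩ := Nat.exists_eq_pow_mul_and_not_dvd hpos.ne' p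
    (Nat.Prime.one_lt (Fact.out : p.Prime)).ne'
  have hcop : Nat.Coprime m (p ^ k) :=
    (Nat.Coprime.pow_left k ((Nat.Prime.coprime_iff_not_dvd Fact.out).2 hm)).symm
  have hbez : (m : ℤ) * Nat.gcdA m (p ^ k) + ((p ^ k : ℕ) : ℤ) * Nat.gcdB m (p ^ k) = 1 := by
    have := Nat.gcd_eq_gcd_ab m (p ^ k)
    rw [hcop.gcd_eq_one] at this
    push_cast at this ⊢
    linarith
  refine ⟨(m : ℤ) * Nat.gcdA m (p ^ k), ((p ^ k : ℕ) : ℤ) * Nat.gcdB m (p ^ k), ?_, ⟨k, ?_⟩, ?_⟩
  · rw [← zpow_add, hbez, zpow_one]
  · rw [orderOf_dvd_iff_pow_eq_one, ← zpow_natCast, ← zpow_mul]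
    have : (m : ℤ) * Nat.gcdA m (p ^ k) * ((p ^ k : ℕ) : ℤ)
        = ((orderOf u : ℕ) : ℤ) * Nat.gcdA m (p ^ k) := by
      rw [hkm]; push_cast; ring
    rw [this, zpow_mul, zpow_natCast, pow_orderOf_eq_one, one_zpow]
  · have h1 : orderOf (u ^ (((p ^ k : ℕ) : ℤ) * Nat.gcdB m (p ^ k))) ∣ m := by
      rw [orderOf_dvd_iff_pow_eq_one, ← zpow_natCast, ← zpow_mul]
      have : ((p ^ k : ℕ) : ℤ) * Nat.gcdB m (p ^ k) * (m : ℤ)
          = ((orderOf u : ℕ) : ℤ) * Nat.gcdB m (p ^ k) := by
        rw [hkm]; push_cast; ring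
      rw [this, zpow_mul, zpow_natCast, pow_orderOf_eq_one, one_zpow]
    exact Nat.Coprime.coprime_dvd_right h1 ((Nat.Prime.coprime_iff_not_dvd Fact.out).2 hm)

/-- In a nilpotent group: the centralizer of the `p'`-elements and the centralizer of the Sylow
`p`-subgroup commute elementwise. -/
theorem commute_centralizers [Group.IsNilpotent H] {p : ℕ} [Fact p.Prime] (R : Sylow p H)
    {u v : H} (hu : ∀ y : H, Nat.Coprime p (orderOf y) → Commute u y)
    (hv : ∀ r ∈ R, Commute v r) : Commute u v := by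
  obtain ⟨a, b, hab, ⟨k, ha⟩, hb⟩ := exists_decomp p u
  obtain ⟨c, d, hcd, ⟨l, hc⟩, hd⟩ := exists_decomp p v
  have h1 : Commute (u ^ a) v := (hv _ (mem_sylow_of_orderOf R ha)).symm
  have h2 : Commute (u ^ b) (v ^ c) :=
    (commute_of_coprime R (mem_sylow_of_orderOf R hc) hb).symm
  have h3 : Commute (u ^ b) (v ^ d) := (hu _ hd).zpow_left b
  have h4 : Commute (u ^ b) v := by
    rw [hcd]
    exact h2.mul_right h3
  rw [hab]
  exact h1.mul_left h4

end

variable {G H : Type*} [Group G] [Group H] [Finite G] [Finite H]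

/-- The case of centres of equal order. -/
theorem isNilpotent_of_card_center_eq [Group.IsNilpotent H] (E : CommEquiv G H)
    (heq : Nat.card (center G) = Nat.card (center H)) : Group.IsNilpotent G := by
  have hcard : Nat.card G = Nat.card H := by
    have := E.card_group
    omega
  refine (Group.isNilpotent_of_finite_tfae.out 0 3 rfl rfl).2 ?_
  intro p hp P
  let R : Sylow p H := default
  -- the two sets of noncentral elements of `H`
  let S1 : Set (NC H) := {y | Nat.Coprime p (orderOf (y : H))}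
  let S2 : Set (NC H) := {y | (y : H) ∈ R}
  have hU' : ∀ u ∈ cz S1, ∀ y : H, Nat.Coprime p (orderOf y) → Commute u y := by
    intro u hu y hy
    by_cases hyc : y ∈ center H
    · exact (Subgroup.mem_center_iff.1 hyc u)
    · exact (mem_cz.1 hu ⟨y, hyc⟩ hy).symm
  have hV' : ∀ v ∈ cz S2, ∀ r ∈ R, Commute v r := by
    intro v hv r hr
    by_cases hrc : r ∈ center H
    · exact (Subgroup.mem_center_iff.1 hrc v)
    · exact (mem_cz.1 hv ⟨r, hrc⟩ hr).symm
  have hUV' : ∀ u ∈ cz S1, ∀ v ∈ cz S2, Commute u v := fun u hu v hv =>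
    commute_centralizers R (hU' u hu) (hV' v hv)
  -- the corresponding subgroups of `G`
  set U : Subgroup G := cz (E.symm.e '' S1) with hUdef
  set V : Subgroup G := cz (E.symm.e '' S2) with hVdef
  have hUcard : Nat.card U = Nat.card (cz S1) := by
    have := E.symm.card_add S1
    rw [← hUdef] at this
    omega
  have hVcard : Nat.card V = Nat.card (cz S2) := by
    have := E.symm.card_add S2
    rw [← hVdef] at this
    omega
  have hUV : ∀ u ∈ U, ∀ v ∈ V, Commute u v := by
    intro u hu v hv
    by_cases huc : u ∈ center G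
    · exact ((Subgroup.mem_center_iff.1 huc v)).symm
    by_cases hvc : v ∈ center G
    · exact (Subgroup.mem_center_iff.1 hvc u)
    have h1 : ((E.e ⟨u, huc⟩ : NC H) : H) ∈ cz S1 := by
      rw [mem_cz]
      intro x hx
      have := mem_cz.1 hu (E.symm.e x) ⟨x, hx, rfl⟩
      have h2 := (E.comm (E.symm.e x) ⟨u, huc⟩).1 this
      simpa [CommEquiv.symm] using h2
    have h2 : ((E.e ⟨v, hvc⟩ : NC H) : H) ∈ cz S2 := by
      rw [mem_cz]
      intro x hx
      have := mem_cz.1 hv (E.symm.e x) ⟨x, hx, rfl⟩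
      have h2 := (E.comm (E.symm.e x) ⟨v, hvc⟩).1 this
      simpa [CommEquiv.symm] using h2
    exact (E.comm ⟨u, huc⟩ ⟨v, hvc⟩).2 (hUV' _ h1 _ h2)
  -- index computations
  have hidx : ∀ (K' : Subgroup H) (K : Subgroup G), Nat.card K = Nat.card K' →
      K.index = K'.index := by
    intro K' K hK
    have e1 := K.card_mul_index
    have e2 := K'.card_mul_index
    rw [hcard, ← e2, hK] at e1
    exact Nat.eq_of_mul_eq_mul_left Nat.card_pos e1
  have hRle : (R : Subgroup H) ≤ cz S1 := by
    intro r hr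
    rw [mem_cz]
    intro y hy
    exact (commute_of_coprime R hr hy).symm
  have hpU : ¬ p ∣ U.index := by
    rw [hidx _ _ hUcard]
    intro h
    exact R.not_dvd_index (dvd_trans h (Subgroup.index_dvd_of_le hRle))
  have hqV : ∀ q : ℕ, q.Prime → q ≠ p → ¬ q ∣ V.index := by
    intro q hq hqp h
    have : Fact q.Prime := ⟨hq⟩
    rw [hidx _ _ hVcard] at h
    let Q : Sylow q H := default
    have hle : (Q : Subgroup H) ≤ cz S2 := by
      intro a ha
      rw [mem_cz]
      intro y hy
      have hdis : Disjoint (Q : Subgroup H) (R : Subgroup H) :=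
        IsPGroup.disjoint_of_ne q p hqp _ _ Q.isPGroup' R.isPGroup'
      exact (Subgroup.commute_of_normal_of_disjoint (Q : Subgroup H) (R : Subgroup H)
          inferInstance inferInstance hdis a y ha hy).symm
    exact Q.not_dvd_index (dvd_trans h (Subgroup.index_dvd_of_le hle))
  obtain ⟨S0, hS0⟩ := exists_sylow_le U hpU
  -- the normalizer of `S0` is everything
  have hnorm : normalizer ((S0 : Subgroup G) : Set G) = ⊤ := by
    rw [← Subgroup.index_eq_one]
    by_contra hne
    obtain ⟨q, hq, hqd⟩ := Nat.exists_prime_and_dvd hne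
    have : Fact q.Prime := ⟨hq⟩
    by_cases hqp : q = p
    · subst hqp
      exact S0.not_dvd_index (dvd_trans hqd (Subgroup.index_dvd_of_le Subgroup.le_normalizer))
    · have hle : V ≤ normalizer ((S0 : Subgroup G) : Set G) := by
        refine le_trans ?_ (Subgroup.centralizer_le_normalizer _)
        intro v hv
        rw [Subgroup.mem_centralizer_iff]
        intro s hs
        exact hUV s (hS0 hs) v hv
      exact hqV q hq hqp (dvd_trans hqd (Subgroup.index_dvd_of_le hle))
  have hS0n : (S0 : Subgroup G).Normal := Subgroup.normalizer_eq_top_iff.1 hnorm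
  obtain ⟨g, hg⟩ := MulAction.exists_smul_eq G S0 P
  have : P = S0 := by
    rw [← hg]
    exact Sylow.smul_eq_of_normal
  rw [this]
  exact hS0n

end Pool.Agent.MP_7a7339_al
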