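import Pool.Agent.MP_7a7339_al.Arith

set_option autoImplicit false

namespace Pool.Agent.MP_7a7339_al

open Subgroup

section
variable {H : Type*} [Group H] [Finite H]

theorem exists_noncentral_of_dvd {p : ℕ} [Fact p.Prime] (hp : p ∣ (center H).index)
    (P : Sylow p H) : ∃ x ∈ P, x ∉ center H := by
  by_contra hcon
  push Not at hcon
  have hle : (P : Subgroup H) ≤ center H := fun x hx => hcon x hx
  have h1 : (center H).index ∣ (P : Subgroup H).index := Subgroup.index_dvd_of_le hle
  exact P.not_dvd_index (dvd_trans hp h1)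

theorem not_dvd_index_centralizer [Group.IsNilpotent H] {p q : ℕ} [Fact p.Prime] [Fact q.Prime]
    (hpq : p ≠ q) (P : Sylow p H) {x : H} (hx : x ∈ P) : ¬ q ∣ (centralizer {x}).index := by
  intro hq
  let Q : Sylow q H := default
  have hle : (Q : Subgroup H) ≤ centralizer {x} := by
    intro y hy
    rw [Subgroup.mem_centralizer_singleton_iff]
    have hdis : Disjoint (Q : Subgroup H) (P : Subgroup H) :=
      IsPGroup.disjoint_of_ne q p hpq.symm _ _ Q.isPGroup' P.isPGroup'
    exact (Subgroup.commute_of_normal_of_disjoint (Q : Subgroup H) (P : Subgroup H)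
      inferInstance inferInstance hdis y x hy hx)
  exact Q.not_dvd_index (dvd_trans hq (Subgroup.index_dvd_of_le hle))

/-- Two distinct primes dividing `|H/Z(H)|` produce a commuting factorization in a nilpotent
group. -/
theorem exists_commuting_factorization [Group.IsNilpotent H] {p q : ℕ} [Fact p.Prime]
    [Fact q.Prime] (hpq : p ≠ q) (hp : p ∣ (center H).index) (hq : q ∣ (center H).index) :
    ∃ x y : NC H, Commute (x : H) y ∧
      Nat.card H * Nat.card (cz ({x, y} : Set (NC H)))
        ≤ Nat.card (centralizer {(x : H)}) * Nat.card (centralizer {(y : H)}) := by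
  let P : Sylow p H := default
  let Q : Sylow q H := default
  obtain ⟨x, hxP, hx⟩ := exists_noncentral_of_dvd hp P
  obtain ⟨y, hyQ, hy⟩ := exists_noncentral_of_dvd hq Q
  refine ⟨⟨x, hx⟩, ⟨y, hy⟩, ?_, ?_⟩
  · have hdis : Disjoint (P : Subgroup H) (Q : Subgroup H) :=
      IsPGroup.disjoint_of_ne p q hpq _ _ P.isPGroup' Q.isPGroup'
    exact (Subgroup.commute_of_normal_of_disjoint (P : Subgroup H) (Q : Subgroup H)
      inferInstance inferInstance hdis x y hxP hyQ)
  · rw [cz_pair]
    set A := centralizer {x} with hA
    set B := centralizer {y} with hB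
    have hcop : Nat.Coprime A.index B.index := by
      refine Nat.Coprime.symm (Nat.coprime_of_dvd fun r hr hrB hrA => ?_)
      haveI : Fact r.Prime := ⟨hr⟩
      have h1 : r = p := by
        by_contra hne
        exact not_dvd_index_centralizer (q := r) (fun h => hne h.symm) P hxP hrA
      have h2 : r = q := by
        by_contra hne
        exact not_dvd_index_centralizer (q := r) (fun h => hne h.symm) Q hyQ hrB
      exact hpq (h1.symm.trans h2)
    have hdvd : A.index * B.index ∣ (A ⊓ B).index :=
      Nat.Coprime.mul_dvd_of_dvd_of_dvd hcop (Subgroup.index_dvd_of_le inf_le_left)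
        (Subgroup.index_dvd_of_le inf_le_right)
    have hle : A.index * B.index ≤ (A ⊓ B).index :=
      Nat.le_of_dvd (Nat.pos_of_ne_zero Subgroup.index_ne_zero_of_finite) hdvd
    have eA := A.card_mul_index
    have eB := B.card_mul_index
    have eK := (A ⊓ B).card_mul_index
    have hpos : 0 < A.index * B.index :=
      Nat.mul_pos (Nat.pos_of_ne_zero Subgroup.index_ne_zero_of_finite)
        (Nat.pos_of_ne_zero Subgroup.index_ne_zero_of_finite)
    refine Nat.le_of_mul_le_mul_right (c := A.index * B.index) ?_ hpos
    calc Nat.card H * Nat.card (A ⊓ B : Subgroup H) * (A.index * B.index)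
        ≤ Nat.card H * Nat.card (A ⊓ B : Subgroup H) * (A ⊓ B).index :=
          Nat.mul_le_mul_left _ hle
      _ = Nat.card H * Nat.card H := by rw [mul_assoc, eK]
      _ = (Nat.card A * A.index) * (Nat.card B * B.index) := by rw [eA, eB]
      _ = Nat.card A * Nat.card B * (A.index * B.index) := by ring

theorem index_center_ne_one (hH : ∃ a b : H, a * b ≠ b * a) : (center H).index ≠ 1 := by
  intro h
  rw [Subgroup.index_eq_one] at h
  obtain ⟨a, b, hab⟩ := hH
  have : a ∈ center H := by rw [h]; trivial
  exact hab ((Subgroup.mem_center_iff.1 this b).symm)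

end

variable {G H : Type*} [Group G] [Group H] [Finite G] [Finite H]

/-- If the centres have different sizes and `H` is nilpotent then `|H / Z(H)|` is a power of a
prime. -/
theorem index_center_prime_pow [Group.IsNilpotent H] (E : CommEquiv G H)
    (hH : ∃ a b : H, a * b ≠ b * a) (hne : Nat.card (center G) ≠ Nat.card (center H)) :
    ∃ p k : ℕ, p.Prime ∧ 0 < k ∧ (center H).index = p ^ k := by
  have h1 := index_center_ne_one hH
  have h0 : (center H).index ≠ 0 := Subgroup.index_ne_zero_of_finite
  refine ⟨(center H).index.minFac, (center H).index.primeFactorsList.length,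
    Nat.minFac_prime h1, ?_, ?_⟩
  · have : (center H).index.minFac ∈ (center H).index.primeFactorsList :=
      (Nat.mem_primeFactorsList h0).2 ⟨Nat.minFac_prime h1, Nat.minFac_dvd _⟩
    exact List.length_pos_of_mem this
  · refine Nat.eq_prime_pow_of_unique_prime_dvd h0 ?_
    intro d hd hdvd
    by_contra hcon
    haveI : Fact d.Prime := ⟨hd⟩
    haveI : Fact ((center H).index.minFac).Prime := ⟨Nat.minFac_prime h1⟩
    obtain ⟨x, y, hxy, hfac⟩ := exists_commuting_factorization hcon hdvd (Nat.minFac_dvd _)
    exact no_commuting_factorization E hne hxy hfac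

/-- If `|H/Z(H)| = p^k`, a subgroup containing the centre has order `|Z(H)| p^j` with `j ≤ k`. -/
theorem card_eq_of_center_le {H : Type*} [Group H] [Finite H] {p k : ℕ} (hp : p.Prime)
    (hk : (center H).index = p ^ k) (K : Subgroup H) (hK : center H ≤ K) :
    ∃ j ≤ k, Nat.card K = Nat.card (center H) * p ^ j ∧ K.index = p ^ (k - j) := by
  have h1 := Subgroup.relIndex_mul_index hK
  rw [hk] at h1
  have h2 : (center H).relIndex K ∣ p ^ k := Dvd.intro _ h1
  obtain ⟨j, hj, hj'⟩ := (Nat.dvd_prime_pow hp).1 h2
  refine ⟨j, hj, ?_, ?_⟩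
  · have h3 := K.card_mul_index
    have h4 := (center H).card_mul_index
    rw [hk] at h4
    have hpos : 0 < K.index := Nat.pos_of_ne_zero Subgroup.index_ne_zero_of_finite
    refine Nat.eq_of_mul_eq_mul_right hpos ?_
    rw [h3, ← h4, ← h1, hj', mul_assoc]
  · rw [hj'] at h1
    have hpp : p ^ k = p ^ j * p ^ (k - j) := by rw [← pow_add]; congr 1; omega
    rw [hpp] at h1
    exact Nat.eq_of_mul_eq_mul_left (pow_pos hp.pos j) h1

end Pool.Agent.MP_7a7339_al
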