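import Pool.Agent.MP_7a7339_al.EqualOrder

set_option autoImplicit false

namespace Pool.Agent.MP_7a7339_al

open Subgroup

/-- A transitive action of a finite group on a finite set in which every group element has a fixed
point is an action on one point. -/
theorem subsingleton_of_forall_fixed {G X : Type*} [Group G] [Finite G] [Finite X]
    [MulAction G X] [MulAction.IsPretransitive G X] (h : ∀ g : G, ∃ x : X, g • x = x) :
    Subsingleton X := by
  classical
  haveI := Fintype.ofFinite G
  haveI := Fintype.ofFinite X
  haveI : ∀ g : G, Fintype (MulAction.fixedBy X g) := fun g => Fintype.ofFinite _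
  haveI : Fintype (Quotient (MulAction.orbitRel G X)) := Fintype.ofFinite _
  have hsum := MulAction.sum_card_fixedBy_eq_card_orbits_mul_card_group G X
  have hsub : Subsingleton (Quotient (MulAction.orbitRel G X)) :=
    MulAction.pretransitive_iff_subsingleton_quotient G X |>.1 inferInstance
  have horb : Fintype.card (Quotient (MulAction.orbitRel G X)) ≤ 1 :=
    Fintype.card_le_one_iff_subsingleton.2 hsub
  by_contra hX
  have hX2 : 2 ≤ Fintype.card X := by
    have : ¬ Fintype.card X ≤ 1 := fun h' => hX (Fintype.card_le_one_iff_subsingleton.1 h')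
    omega
  have h1 : ∀ g : G, 1 ≤ Fintype.card (MulAction.fixedBy X g) := by
    intro g
    obtain ⟨x, hx⟩ := h g
    exact Fintype.card_pos_iff.2 ⟨⟨x, hx⟩⟩
  have h2 : 2 ≤ Fintype.card (MulAction.fixedBy X (1 : G)) := by
    have : Fintype.card (MulAction.fixedBy X (1 : G)) = Fintype.card X := by
      refine Fintype.card_congr ?_
      exact { toFun := fun a => a.1, invFun := fun a => ⟨a, one_smul _ _⟩,
              left_inv := fun _ => rfl, right_inv := fun _ => rfl }
    omega
  have h3 : Fintype.card G + 1 ≤ ∑ g : G, Fintype.card (MulAction.fixedBy X g) := by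
    rw [← Finset.add_sum_erase Finset.univ _ (Finset.mem_univ (1 : G))]
    have h4 : (Finset.univ.erase (1 : G)).card
        ≤ ∑ g ∈ Finset.univ.erase (1 : G), Fintype.card (MulAction.fixedBy X g) := by
      calc (Finset.univ.erase (1 : G)).card = ∑ g ∈ Finset.univ.erase (1 : G), 1 := by simp
        _ ≤ _ := Finset.sum_le_sum fun g _ => h1 g
    have h5 : (Finset.univ.erase (1 : G)).card + 1 = Fintype.card G := by
      rw [Finset.card_erase_of_mem (Finset.mem_univ _), Finset.card_univ]
      have : 0 < Fintype.card G := Fintype.card_pos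
      omega
    omega
  rw [hsum] at h3
  have h6 : Fintype.card (Quotient (MulAction.orbitRel G X)) * Fintype.card G
      ≤ 1 * Fintype.card G := Nat.mul_le_mul_right _ horb
  omega

/-- If no class size of `G` is divisible by the prime `p`, then `p` does not divide
`|G : Z(G)|`. -/
theorem not_dvd_index_center {G : Type*} [Group G] [Finite G] {p : ℕ} [Fact p.Prime]
    (h : ∀ x : G, ¬ p ∣ (centralizer {x}).index) : ¬ p ∣ (center G).index := by
  have hsub : Subsingleton (Sylow p G) := by
    refine subsingleton_of_forall_fixed (G := G) (X := Sylow p G) ?_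
    intro g
    obtain ⟨P, hP⟩ := exists_sylow_le (centralizer {g}) (h g)
    refine ⟨P, ?_⟩
    rw [Sylow.smul_eq_iff_mem_normalizer]
    refine Subgroup.centralizer_le_normalizer _ ?_
    rw [Subgroup.mem_centralizer_iff]
    intro s hs
    exact Subgroup.mem_centralizer_singleton_iff.1 (hP hs)
  let S : Sylow p G := default
  have hS : (S : Subgroup G) ≤ center G := by
    intro s hs
    rw [Subgroup.mem_center_iff]
    intro g
    obtain ⟨P, hP⟩ := exists_sylow_le (centralizer {g}) (h g)
    have : P = S := Subsingleton.elim _ _
    rw [this] at hP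
    exact (Subgroup.mem_centralizer_singleton_iff.1 (hP hs)).symm
  intro hd
  exact S.not_dvd_index (dvd_trans hd (Subgroup.index_dvd_of_le hS))

end Pool.Agent.MP_7a7339_al
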